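import Pool.Agent.Lib.MP_1a14d4_lc.DefsC

namespace MHon

theorem exists_codes (m B : ℕ) (h : B ≤ 2 ^ m) :
    ∃ d : ℕ → W, (∀ j, (d j).length = m) ∧ ∀ i < B, ∀ j < B, d i = d j → i = j := by
  have hcard : Fintype.card (Fin B) ≤ Fintype.card (Fin m → Bool) := by
    simpa using h
  obtain ⟨g⟩ := Function.Embedding.nonempty_of_card_le hcard
  refine ⟨fun j => if hj : j < B then List.ofFn (g ⟨j, hj⟩) else List.replicate m false, ?_, ?_⟩
  · intro j
    dsimp only
    split_ifs <;> simp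
  · intro i hi j hj hij
    simp only [hi, hj, dif_pos] at hij
    have h1 := g.injective (List.ofFn_injective hij)
    simpa using h1

/-- a polynomial is bounded by a power -/
theorem poly_le (P : Polynomial ℕ) : ∃ κ : ℕ, ∀ n, P.eval n ≤ (n + 2) ^ κ := by
  induction P using Polynomial.induction_on' with
  | add p q hp hq =>
    obtain ⟨a, ha⟩ := hp
    obtain ⟨b, hb⟩ := hq
    refine ⟨max a b + 1, fun n => ?_⟩
    have h1 : (n + 2) ^ a ≤ (n + 2) ^ max a b := Nat.pow_le_pow_right (by omega) (le_max_left _ _)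
    have h2 : (n + 2) ^ b ≤ (n + 2) ^ max a b := Nat.pow_le_pow_right (by omega) (le_max_right _ _)
    have h3 := ha n
    have h4 := hb n
    rw [Polynomial.eval_add, pow_succ]
    have h5 : (n + 2) ^ max a b * 2 ≤ (n + 2) ^ max a b * (n + 2) :=
      Nat.mul_le_mul_left _ (by omega)
    omega
  | monomial k a =>
    refine ⟨k + a, fun n => ?_⟩
    rw [Polynomial.eval_monomial, pow_add, mul_comm]
    refine Nat.mul_le_mul (Nat.pow_le_pow_left (by omega) _) ?_
    calc a ≤ 2 ^ a := Nat.lt_two_pow_self.le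
      _ ≤ (n + 2) ^ a := Nat.pow_le_pow_left (by omega) _

/-- polynomials satisfy `Subexp` -/
theorem subexp_poly (P : Polynomial ℕ) : Subexp (fun m => P.eval m) := by
  intro k
  obtain ⟨κ, hκ⟩ := poly_le P
  have h1 : Filter.Tendsto (fun n : ℕ => ((n : ℝ) ^ (κ * k)) / (2 : ℝ) ^ n) Filter.atTop (nhds 0) :=
    tendsto_pow_const_div_const_pow_of_one_lt (κ * k) (by norm_num)
  have h2 : Filter.Tendsto (fun n : ℕ => n + 2) Filter.atTop Filter.atTop :=
    Filter.tendsto_add_atTop_nat 2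
  have h3 := (h1.comp h2).eventually (gt_mem_nhds (show (0 : ℝ) < 1 / 4 by norm_num))
  filter_upwards [h3] with m hm
  simp only [Function.comp_apply] at hm
  have hpos : (0 : ℝ) < 2 ^ (m + 2) := by positivity
  rw [div_lt_iff₀ hpos] at hm
  have h4 : (1 / 4 : ℝ) * 2 ^ (m + 2) = 2 ^ m := by rw [pow_add]; ring
  rw [h4] at hm
  have h5 : (m + 2) ^ (κ * k) < 2 ^ m := by exact_mod_cast hm
  calc P.eval m ^ k ≤ ((m + 2) ^ κ) ^ k := Nat.pow_le_pow_left (hκ m) k
    _ = (m + 2) ^ (κ * k) := by rw [pow_mul]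
    _ < 2 ^ m := h5

end MHon
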