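import Pool.Agent.Lib.MP_1a14d4_lc.DefsU

namespace MHon

open Pool.Agent.Lib.PolyTime

private theorem parse_word (x : T) : ∀ rest : W,
    ((x.word false true) ++ rest).foldr parseStep [] = x :: rest.foldr parseStep [] := by
  induction x with
  | nil =>
    intro rest
    rfl
  | node l r ihl ihr =>
    intro rest
    show parseStep true (((l.word false true ++ r.word false true) ++ rest).foldr parseStep []) = _
    rw [List.append_assoc, ihl, ihr]
    rfl

theorem parseT_wd {α : Type} [TEnc α] (a : α) : parseT (wd false true a) = enc a := by
  have h := parse_word (enc a) []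
  rw [List.append_nil] at h
  show (((enc a).word false true).foldr parseStep []).headD T.nil = enc a
  rw [h]
  rfl

private def parse_m (s : List T) : ℕ := (s.map (fun t => t.size + 1)).sum

private theorem parse_m_step (b : Bool) (s : List T) : parse_m (parseStep b s) ≤ parse_m s + 1 := by
  cases b with
  | false =>
    show parse_m (T.nil :: s) ≤ _
    simp only [parse_m, List.map_cons, List.sum_cons, T.size_nil]
    omega
  | true =>
    match s with
    | [] => exact Nat.le_succ _
    | [x] => exact Nat.le_succ _
    | l :: r :: s =>
      show parse_m (T.node l r :: s) ≤ _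
      simp only [parse_m, List.map_cons, List.sum_cons, T.size_node]
      omega

private theorem parse_m_foldr (z : W) : parse_m (z.foldr parseStep []) ≤ z.length := by
  induction z with
  | nil => exact le_rfl
  | cons b z ih =>
    rw [List.foldr_cons, List.length_cons]
    exact (parse_m_step b _).trans (Nat.succ_le_succ ih)

theorem size_parseT (z : W) : (parseT z).size ≤ z.length := by
  refine le_trans ?_ (parse_m_foldr z)
  unfold parseT
  cases z.foldr parseStep [] with
  | nil => exact Nat.zero_le _
  | cons t s =>
    simp only [List.headD_cons, parse_m, List.map_cons, List.sum_cons]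
    omega

private def parse_node (s : List T) : List T :=
  match s with
  | l :: r :: s => T.node l r :: s
  | s => s

private theorem polyF_parse_node : PolyF parse_node := by
  refine PolyF.listCases (l := fun s : List T => s) (g := fun _ => [])
    (h := fun q : List T × T × List T => match q.2.2 with
      | [] => [q.2.1]
      | r :: s => T.node q.2.1 r :: s) PolyF.id (PolyF.const _) ?_ ?_ ?_
  · refine PolyF.listCases (l := fun q : List T × T × List T => q.2.2)
      (g := fun q => [q.2.1])
      (h := fun p : (List T × T × List T) × T × List T => T.node p.1.2.1 p.2.1 :: p.2.2)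
      PolyF.snd'.snd PolyF.snd'.fst.singleton ?_ ?_ ?_
    · exact (PolyF.fst'.snd.fst.node PolyF.snd'.fst).cons PolyF.snd'.snd
    · intro x hx
      simp only [hx]
    · intro x b t hx
      simp only [hx]
  · intro x hx
    have hx' : x = [] := hx
    rw [hx']
    rfl
  · intro x b t hx
    have hx' : x = b :: t := hx
    rw [hx']
    cases t <;> rfl

theorem polyF_parseT : PolyF parseT := by
  have hstep : PolyF (fun p : W × Bool × List T => parseStep p.2.1 p.2.2) := by
    refine (PolyF.iteBool (c := fun p : W × Bool × List T => p.2.1)
      (f := fun p => parse_node p.2.2) (g := fun p => T.nil :: p.2.2) PolyF.snd'.fst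
      (polyF_parse_node.comp PolyF.snd'.snd) ((PolyF.const T.nil).cons PolyF.snd'.snd)).congr ?_
    rintro ⟨w, b, s⟩
    cases b with
    | false => rfl
    | true =>
      match s with
      | [] => rfl
      | [x] => rfl
      | l :: r :: s => rfl
  have hf : PolyF (fun z : W => z.foldr parseStep []) := by
    refine PolyF.foldr_add (l := fun z : W => z) (i := fun _ => ([] : List T))
      (f := fun _ b s => parseStep b s) PolyF.id (PolyF.const _) hstep (fun _ => 1) (PBd.const 1) ?_
    intro x c b _
    cases b with
    | false =>
      show sz (T.nil :: c) ≤ _
      rw [sz_cons]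
      show 1 + 0 + sz c ≤ sz c + 1
      omega
    | true =>
      match c with
      | [] => exact Nat.le_succ _
      | [x] => exact Nat.le_succ _
      | l :: r :: s =>
        show sz (T.node l r :: s) ≤ _
        simp only [sz_cons]
        show 1 + (1 + l.size + r.size) + sz s ≤ 1 + l.size + (1 + r.size + sz s) + 1
        omega
  exact (hf.head?.getD (PolyF.const T.nil)).congr fun x => by
    unfold parseT
    rw [List.headD_eq_head?_getD]

end MHon
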