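import Pool.Agent.Lib.MP_1a14d4_lc.Dec

namespace MHon

open Pool.Agent.Lib.PolyTime

private theorem univ_stepRow_length (e : T) (row : List T) (h : 1 ≤ row.length) :
    (stepRow e row).length = row.length := by
  unfold stepRow
  rw [List.length_append, List.length_map, List.length_range, List.length_singleton]
  omega

private theorem univ_iter_length (e : T) (row : List T) (h : 1 ≤ row.length) (n : ℕ) :
    ((stepRow e)^[n] row).length = row.length := by
  induction n with
  | zero => rfl
  | succ n ih =>
    rw [Function.iterate_succ_apply', univ_stepRow_length e _ (by rw [ih]; exact h), ih]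

private theorem univ_row0_length (e : T) (u : List (Option Bool)) (M : ℕ) :
    (row0 e u M).length = M + 1 := by
  unfold row0
  rw [List.length_map, List.length_range]

theorem univ_length (e : T) (u : List (Option Bool)) (n : ℕ) :
    (univ e u n).length ≤ u.length + n + 1 := by
  unfold univ
  refine (List.length_filterMap_le _ _).trans (le_of_eq ?_)
  rw [univ_iter_length e _ (by rw [univ_row0_length]; omega), univ_row0_length]

/-! ### sizes -/

private theorem univ_toL_size : ∀ (e p : T), p ∈ toL e → p.size ≤ e.size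
  | .nil, p, h => by simp [toL] at h
  | .node l r, p, h => by
    simp only [toL, List.mem_cons] at h
    rcases h with rfl | h
    · simp only [T.size_node]
      omega
    · have := univ_toL_size r p h
      simp only [T.size_node]
      omega

private theorem univ_right_size (p : T) : p.right.size ≤ p.size := by
  cases p with
  | nil => exact le_rfl
  | node l r =>
    show r.size ≤ _
    simp only [T.size_node]
    omega

private theorem univ_lookup_size (B : ℕ) (k : T) : ∀ l : List (T × T), (∀ q ∈ l, q.2.size ≤ B) →
    ((l.lookup k).getD T.nil).size ≤ B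
  | [], _ => by simp [List.lookup]
  | (a, b) :: l, h => by
    rw [List.lookup_cons]
    cases hk : (k == a) with
    | true => simpa using h (a, b) (by simp)
    | false => simpa using univ_lookup_size B k l (fun q hq => h q (by simp [hq]))

private theorem univ_tb_size (e key : T) : (tb e key).size ≤ e.size := by
  unfold tb
  refine univ_lookup_size _ _ _ ?_
  intro q hq
  obtain ⟨p, hp, rfl⟩ := List.mem_map.1 hq
  exact (univ_right_size p).trans (univ_toL_size e p hp)

private theorem univ_getD_size (B : ℕ) (row : List T) (h : ∀ s ∈ row, s.size ≤ B) (i : ℕ) :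
    (row.getD i T.nil).size ≤ B := by
  rw [List.getD_eq_getElem?_getD]
  cases hi : row[i]? with
  | none => simp
  | some s => simpa using h s (List.mem_of_getElem? hi)

private theorem univ_row0_size (e : T) (u : List (Option Bool)) (M : ℕ) :
    ∀ s ∈ row0 e u M, s.size ≤ e.size := by
  intro s hs
  unfold row0 at hs
  obtain ⟨i, _, rfl⟩ := List.mem_map.1 hs
  exact univ_tb_size _ _

private theorem univ_stepRow_size (e : T) (row : List T) (h : ∀ s ∈ row, s.size ≤ e.size) :
    ∀ s ∈ stepRow e row, s.size ≤ e.size := by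
  intro s hs
  unfold stepRow at hs
  rcases List.mem_append.1 hs with hs | hs
  · obtain ⟨i, _, rfl⟩ := List.mem_map.1 hs
    split_ifs
    · exact univ_tb_size _ _
    · exact univ_tb_size _ _
  · rw [List.mem_singleton] at hs
    rw [hs]
    exact univ_getD_size _ _ h _

private theorem univ_iter_size (e : T) (row : List T) (h : ∀ s ∈ row, s.size ≤ e.size) (n : ℕ) :
    ∀ s ∈ (stepRow e)^[n] row, s.size ≤ e.size := by
  induction n with
  | zero => exact h
  | succ n ih =>
    rw [Function.iterate_succ_apply']
    exact univ_stepRow_size e _ ih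

/-! ### polynomial time -/

private theorem univ_polyF_getD {α : Type} [TEnc α] {l : α → List T} {n : α → ℕ} (hl : PolyF l)
    (hn : PolyF n) : PolyF (fun x => (l x).getD (n x) T.nil) :=
  ((hn.getElem? hl).getD (PolyF.const T.nil)).congr fun x => by
    rw [List.getD_eq_getElem?_getD]

private theorem univ_polyF_tb {α β : Type} [TEnc α] [TEnc β] {e : α → T} {k : α → β}
    (he : PolyF e) (hk : PolyF k) : PolyF (fun x => tb (e x) (enc (k x))) :=
  polyF_tb.comp₂ he hk.enc_fun

private theorem univ_polyF_stepRow :
    PolyF (fun q : (T × List (Option Bool) × ℕ) × List T => stepRow q.1.1 q.2) := by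
  unfold stepRow
  have hlen : PolyF (fun q : (T × List (Option Bool) × ℕ) × List T => q.2.length - 1) :=
    PolyF.snd'.length.natSub (PolyF.const 1)
  refine (hlen.range.map (h := fun q i =>
    if i = 0 then tb q.1.1 (enc ((0 : ℕ), q.2.getD 0 T.nil, q.2.getD 1 T.nil))
    else tb q.1.1 (enc ((1 : ℕ), q.2.getD 0 T.nil, q.2.getD (i - 1) T.nil, q.2.getD i T.nil,
      q.2.getD (i + 1) T.nil))) ?_).append
    (PolyF.singleton (univ_polyF_getD PolyF.snd' hlen))
  have hrow : PolyF (fun p : ((T × List (Option Bool) × ℕ) × List T) × ℕ => p.1.2) :=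
    PolyF.fst'.snd
  have hi : PolyF (fun p : ((T × List (Option Bool) × ℕ) × List T) × ℕ => p.2) := PolyF.snd'
  have he : PolyF (fun p : ((T × List (Option Bool) × ℕ) × List T) × ℕ => p.1.1.1) :=
    PolyF.fst'.fst.fst
  have g : ∀ {n : ((T × List (Option Bool) × ℕ) × List T) × ℕ → ℕ}, PolyF n →
      PolyF (fun p : ((T × List (Option Bool) × ℕ) × List T) × ℕ =>
        p.1.2.getD (n p) T.nil) := fun hn => univ_polyF_getD hrow hn
  refine PolyF.ite (p := fun p : ((T × List (Option Bool) × ℕ) × List T) × ℕ => p.2 = 0)
    hi.natIsZero ?_ ?_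
  · exact univ_polyF_tb he ((PolyF.const 0).pair ((g (PolyF.const 0)).pair (g (PolyF.const 1))))
  · exact univ_polyF_tb he ((PolyF.const 1).pair ((g (PolyF.const 0)).pair
      ((g hi.pred).pair ((g hi).pair (g hi.succ)))))

private theorem univ_polyF_row0 :
    PolyF (fun x : T × List (Option Bool) × ℕ => row0 x.1 x.2.1 (x.2.1.length + x.2.2)) := by
  unfold row0
  have hlen : PolyF (fun x : T × List (Option Bool) × ℕ => x.2.1.length + x.2.2 + 1) :=
    (PolyF.snd'.fst.length.natAdd PolyF.snd'.snd).succ
  refine hlen.range.map (h := fun x i => tb x.1 (enc ((2 : ℕ), decide (i = 0), x.2.1[i]?))) ?_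
  refine univ_polyF_tb (e := fun p : (T × List (Option Bool) × ℕ) × ℕ => p.1.1)
    PolyF.fst'.fst ?_
  refine (PolyF.const 2).pair (PolyF.pair ?_ ?_)
  · exact PolyF.natIsZero (f := fun p : (T × List (Option Bool) × ℕ) × ℕ => p.2) PolyF.snd'
  · exact PolyF.getElem? PolyF.snd' PolyF.fst'.snd.fst

theorem polyF_univ :
    PolyF (fun p : T × List (Option Bool) × ℕ => univ p.1 p.2.1 p.2.2) := by
  unfold univ
  have hiter : PolyF (fun x : T × List (Option Bool) × ℕ =>
      (stepRow x.1)^[x.2.2] (row0 x.1 x.2.1 (x.2.1.length + x.2.2))) := by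
    refine PolyF.natIterate (n := fun x : T × List (Option Bool) × ℕ => x.2.2)
      (f := fun x row => stepRow x.1 row)
      (g := fun x => row0 x.1 x.2.1 (x.2.1.length + x.2.2)) PolyF.snd'.snd univ_polyF_stepRow
      univ_polyF_row0 ?_
    refine ⟨(Polynomial.X + 1) * (Polynomial.X + Polynomial.X + 1), fun x i _ => ?_⟩
    have h1 : sz ((stepRow x.1)^[i] (row0 x.1 x.2.1 (x.2.1.length + x.2.2)))
        ≤ (x.1.size + 1) * (x.2.1.length + x.2.2 + 1) := by
      have h2 := sz_le_of_forall (l := (stepRow x.1)^[i]
        (row0 x.1 x.2.1 (x.2.1.length + x.2.2))) (M := x.1.size)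
        (univ_iter_size x.1 _ (univ_row0_size _ _ _) i)
      rw [univ_iter_length _ _ (by rw [univ_row0_length]; omega), univ_row0_length] at h2
      exact h2
    refine h1.trans ?_
    simp only [Polynomial.eval_mul, Polynomial.eval_add, Polynomial.eval_one, Polynomial.eval_X]
    have h3 : sz x = 1 + x.1.size + (1 + sz x.2.1 + x.2.2) := by
      rw [sz_prod, sz_prod, sz_nat, sz_T]
    have h4 := length_le_sz x.2.1
    exact Nat.mul_le_mul (by omega) (by omega)
  refine hiter.filterMap (h := fun x s => decOB (tb x.1 (enc ((3 : ℕ), s)))) ?_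
  exact polyF_decOB.comp (univ_polyF_tb
    (e := fun p : (T × List (Option Bool) × ℕ) × T => p.1.1) PolyF.fst'.fst
    ((PolyF.const 3).pair PolyF.snd'))

end MHon
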