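import Pool.Agent.Lib.MP_1a14d4_lc.DefsC
import Pool.Agent.Lib.PolyTime.EqOps

/-!
# Universal simulation by tables, the universal sets
-/

namespace MHon

open Pool.Agent.Lib.PolyTime

/-! ### Trees -/

/-- a tree as a list (along the right spine) -/
def toL : T → List T
  | .nil => []
  | .node l r => l :: toL r

/-- the word encoded by a tree -/
def decW (t : T) : W := (toL t).map (fun s => decide (s ≠ T.nil))

/-- the number encoded by a tree -/
def decN (t : T) : ℕ := (toL t).length

/-- the element of `Option Bool` encoded by a tree -/
def decOB : T → Option Bool
  | .nil => none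
  | .node .nil _ => some false
  | .node (.node _ _) _ => some true

/-- one step of the parser, which reads the word from the right to the left -/
def parseStep : Bool → List T → List T
  | false, s => T.nil :: s
  | true, l :: r :: s => T.node l r :: s
  | true, s => s

/-- the tree written (in preorder) by a word -/
def parseT (z : W) : T := (z.foldr parseStep []).headD T.nil

/-! ### Cellular automata given by a table -/

/-- the value of the table `e` for the key -/
def tb (e key : T) : T := (((toL e).map (fun p => (p.left, p.right))).lookup key).getD T.nil

/-- the initial row, with the cells `0, ..., M` -/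
def row0 (e : T) (u : List (Option Bool)) (M : ℕ) : List T :=
  (List.range (M + 1)).map fun i => tb e (enc ((2 : ℕ), decide (i = 0), u[i]?))

/-- the next row; the last cell does not change -/
def stepRow (e : T) (row : List T) : List T :=
  (List.range (row.length - 1)).map (fun i =>
    if i = 0 then tb e (enc ((0 : ℕ), row.getD 0 T.nil, row.getD 1 T.nil))
    else tb e (enc ((1 : ℕ), row.getD 0 T.nil, row.getD (i - 1) T.nil, row.getD i T.nil,
      row.getD (i + 1) T.nil))) ++ [row.getD (row.length - 1) T.nil]

/-- the output of the automaton with the table `e` on input `u` after `n` steps -/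
def univ (e : T) (u : List (Option Bool)) (n : ℕ) : List Bool :=
  ((stepRow e)^[n] (row0 e u (u.length + n))).filterMap fun s => decOB (tb e (enc ((3 : ℕ), s)))

/-! ### The universal set for NEXP -/

/-- The universal predicate: `z` is the word of `(e, x, s, n)`, `w'` is `1 ^ (2 ^ n) 0 w`, the total
length of `x`, `w`, `L` is at most `2 ^ s`, and the automaton with the table `e` accepts
`x # w # L` after `2 ^ n` steps. -/
def VK (r : W × W × List (W × Bool)) : Bool :=
  decide ((r.2.1.takeWhile (fun b => b)).length = 2 ^ decN (parseT r.1).right.right.right) &&
  (decide ((runWord (decW (parseT r.1).right.left, (r.2.1.dropWhile (fun b => b)).tail,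
      r.2.2)).length ≤ 2 ^ decN (parseT r.1).right.right.left) &&
    decide (univ (parseT r.1).left (runWord (decW (parseT r.1).right.left,
      (r.2.1.dropWhile (fun b => b)).tail, r.2.2)) (r.2.1.takeWhile (fun b => b)).length = [true]))

/-- the universal set for NEXP -/
def KN (O : Set W) : Set W := {z | ∃ w' L, VK (z, w', L) = true ∧ Agrees L O}

/-- the complete set of the copy `k` for NEXP -/
def AN (O : Set W) (k : ℕ) : Set W :=
  {y | (∃ z, y = true :: z ∧ tag k 0 z ∉ O ∧ z ∈ KN O) ∨
    ∃ c t : W, y = false :: c ∧ t.length = 2 ^ c.length ∧ tw c t ∈ O}

/-! ### The universal set for RE -/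

/-- the universal recursively enumerable relation: `z` is `1 ^ e 0 x` and the partial recursive
function with the index `e` is defined at `(x, L)` -/
def RU (r : W × List (W × Bool)) : Prop :=
  (Nat.Partrec.Code.eval (Denumerable.ofNat Nat.Partrec.Code (r.1.takeWhile (fun b => b)).length)
    (Encodable.encode ((r.1.dropWhile (fun b => b)).tail, r.2))).Dom

/-- the universal set for RE -/
def KR (O : Set W) : Set W := {z | ∃ L, RU (z, L) ∧ Agrees L O}

/-- the complete set of the copy `k` for RE -/
def AR (O : Set W) (k : ℕ) : Set W := cf O k '' KR O

end MHon
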