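import Pool.Agent.Lib.MP_1a14d4_lc.DefsU

namespace MHon

open Pool.Agent.Lib.PolyTime

theorem toL_enc {α : Type} [TEnc α] (l : List α) : toL (enc l) = l.map enc := by
  induction l with
  | nil => rfl
  | cons a l ih => simp only [enc_cons, toL, ih, List.map_cons]

theorem decW_enc (x : W) : decW (enc x) = x := by
  unfold decW
  rw [toL_enc, List.map_map]
  conv_rhs => rw [← List.map_id x]
  refine List.map_congr_left fun b _ => ?_
  cases b <;> simp

theorem decN_enc (n : ℕ) : decN (enc n) = n := by
  unfold decN
  induction n with
  | zero => rfl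
  | succ n ih => simp only [enc_succ, toL, List.length_cons, ih]

theorem decOB_enc (o : Option Bool) : decOB (enc o) = o := by
  rcases o with _ | b
  · rfl
  · cases b <;> rfl

theorem decN_le (t : T) : decN t ≤ t.size := by
  unfold decN
  induction t with
  | nil => simp [toL]
  | node l r _ ih =>
    simp only [toL, List.length_cons, T.size_node]
    omega

theorem enc_toL (t : T) : enc (toL t) = t := by
  induction t with
  | nil => rfl
  | node l r _ ih => simp only [toL, enc_cons, enc_T, ih]

theorem polyF_toL : PolyF toL :=
  PolyF.of_T (F := fun t => t) PolyF.id fun t => by rw [enc_toL]; rfl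

theorem polyF_decW : PolyF decW := by
  unfold decW
  exact polyF_toL.map (h := fun _ s => decide (s ≠ T.nil))
    (PolyF.decide_not (PolyF.eqConst T.nil PolyF.snd'))

theorem polyF_decN : PolyF decN := by
  unfold decN
  exact polyF_toL.length

theorem polyF_decOB : PolyF decOB := by
  refine PolyF.treeCases (t := fun t : T => t) (g := fun _ => none)
    (h := fun p : T × T × T => if p.2.1 = T.nil then some false else some true) PolyF.id
    (PolyF.const _) (PolyF.ite (PolyF.eqConst T.nil PolyF.snd'.fst) (PolyF.const _)
      (PolyF.const _)) ?_ ?_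
  · intro x hx
    rw [hx]
    rfl
  · intro x l r hx
    rw [hx]
    cases l <;> simp [decOB]

theorem polyF_tb : PolyF (fun p : T × T => tb p.1 p.2) := by
  unfold tb
  have h1 : PolyF (fun p : T × T => (toL p.1).map (fun q => (q.left, q.right))) :=
    (polyF_toL.comp PolyF.fst').map (h := fun _ q => (T.left q, T.right q))
      ((PolyF.left.comp PolyF.snd').pair (PolyF.right.comp PolyF.snd'))
  exact (PolyF.lookup PolyF.snd' h1).getD (PolyF.const T.nil)

end MHon
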