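import Pool.Agent.Lib.MP_1a14d4_lc.DefsU

namespace MHon

open Pool.Agent.Lib.PolyTime

/-- the next row of the abstract automaton, with cells `0, ..., M - 1` -/
def nextC {C : Type*} (r0 : C → C → C) (r1 : C → C → C → C → C) (bl : C) (M : ℕ) (c : ℕ → C) :
    ℕ → C := fun i =>
  if i < M then (if i = 0 then r0 (c 0) (c 1) else r1 (c 0) (c (i - 1)) (c i) (c (i + 1))) else bl

private theorem row_getD {C : Type*} (code : C → T) (c : ℕ → C) (M j : ℕ) (hj : j ≤ M) :
    ((List.range (M + 1)).map (fun i => code (c i))).getD j T.nil = code (c j) := by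
  rw [List.getD_eq_getElem?_getD, List.getElem?_map, List.getElem?_range (by omega)]
  rfl

private theorem row_step {C : Type*} {G : Set C} {r0 : C → C → C} {r1 : C → C → C → C → C} {bl : C}
    {e : T} {code : C → T}
    (e0 : ∀ a ∈ G, ∀ b ∈ G, tb e (enc ((0 : ℕ), code a, code b)) = code (r0 a b))
    (e1 : ∀ a ∈ G, ∀ b ∈ G, ∀ c ∈ G, ∀ d ∈ G,
      tb e (enc ((1 : ℕ), code a, code b, code c, code d)) = code (r1 a b c d))
    (M : ℕ) (c : ℕ → C) (hc : ∀ i, c i ∈ G) (hb : ∀ i, M ≤ i → c i = bl) :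
    stepRow e ((List.range (M + 1)).map (fun i => code (c i))) =
      (List.range (M + 1)).map (fun i => code (nextC r0 r1 bl M c i)) := by
  unfold stepRow
  have hr : (List.range (M + 1)).map (fun i => code (nextC r0 r1 bl M c i)) =
      (List.range M).map (fun i => code (nextC r0 r1 bl M c i)) ++
        [code (nextC r0 r1 bl M c M)] := by
    rw [List.range_succ, List.map_append, List.map_singleton]
  rw [List.length_map, List.length_range, Nat.add_sub_cancel, hr]
  congr 1
  · apply List.map_congr_left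
    intro i hi
    rw [List.mem_range] at hi
    unfold nextC
    rw [if_pos hi]
    by_cases h0 : i = 0
    · subst h0
      rw [if_pos rfl, if_pos rfl, row_getD code c M 0 (by omega), row_getD code c M 1 (by omega),
        e0 _ (hc 0) _ (hc 1)]
    · rw [if_neg h0, if_neg h0, row_getD code c M 0 (by omega),
        row_getD code c M (i - 1) (by omega), row_getD code c M i (by omega),
        row_getD code c M (i + 1) (by omega), e1 _ (hc 0) _ (hc _) _ (hc i) _ (hc _)]
  · unfold nextC
    rw [row_getD code c M M le_rfl, if_neg (lt_irrefl M), hb M le_rfl]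

theorem row_iterate {C : Type*} {G : Set C} {r0 : C → C → C} {r1 : C → C → C → C → C} {bl : C}
    (hbl : bl ∈ G) (h0 : ∀ a ∈ G, ∀ b ∈ G, r0 a b ∈ G)
    (h1 : ∀ a ∈ G, ∀ b ∈ G, ∀ c ∈ G, ∀ d ∈ G, r1 a b c d ∈ G) {e : T} {code : C → T}
    (e0 : ∀ a ∈ G, ∀ b ∈ G, tb e (enc ((0 : ℕ), code a, code b)) = code (r0 a b))
    (e1 : ∀ a ∈ G, ∀ b ∈ G, ∀ c ∈ G, ∀ d ∈ G,
      tb e (enc ((1 : ℕ), code a, code b, code c, code d)) = code (r1 a b c d))
    (M : ℕ) (c : ℕ → C) (hc : ∀ i, c i ∈ G) (hb : ∀ i, M ≤ i → c i = bl) (n : ℕ) :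
    (stepRow e)^[n] ((List.range (M + 1)).map (fun i => code (c i))) =
      (List.range (M + 1)).map (fun i => code ((nextC r0 r1 bl M)^[n] c i)) ∧
    ∀ i, (nextC r0 r1 bl M)^[n] c i ∈ G := by
  induction n generalizing c with
  | zero => exact ⟨rfl, hc⟩
  | succ n ih =>
    have hc' : ∀ i, nextC r0 r1 bl M c i ∈ G := by
      intro i
      unfold nextC
      split_ifs
      · exact h0 _ (hc 0) _ (hc 1)
      · exact h1 _ (hc 0) _ (hc _) _ (hc i) _ (hc _)
      · exact hbl
    have hb' : ∀ i, M ≤ i → nextC r0 r1 bl M c i = bl := by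
      intro i hi
      unfold nextC
      rw [if_neg (by omega)]
    rw [Function.iterate_succ_apply, Function.iterate_succ_apply, row_step e0 e1 M c hc hb]
    exact ih _ hc' hb'

end MHon
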