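import Pool.Agent.Lib.MP_1a14d4_lc.Tab
import Pool.Agent.Lib.MP_1a14d4_lc.Row
import Pool.Agent.Lib.CookLevin.Final

namespace MHon

open Pool.Agent.Lib.PolyTime Pool.Agent.Lib.CookLevin Turing

private theorem tabl_len {K : Type} [DecidableEq K] {Γ : K → Type} {Λ σ : Type}
    (m : Λ → TM2.Stmt Γ Λ σ) (c : MCfg Γ Λ σ) (k : K) (n : ℕ) :
    (((micro m)^[n] c).S k).length ≤ (c.S k).length + n := by
  induction n generalizing c with
  | zero => exact le_rfl
  | succ n ih =>
    rw [Function.iterate_succ_apply]
    have h1 := ih (micro m c)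
    have h2 := length_micro m c k
    omega

private theorem tabl_filterMap {α : Type*} (l : List α) (N : ℕ) (h : l.length ≤ N) :
    (List.range N).filterMap (fun i => l[i]?) = l := by
  induction l generalizing N with
  | nil => simp
  | cons a l ih =>
    cases N with
    | zero => simp at h
    | succ N =>
      rw [List.range_succ_eq_map, List.filterMap_cons]
      simp only [List.getElem?_cons_zero, List.filterMap_map]
      have := ih N (by simpa using h)
      congr 1

theorem exists_table {α β : Type} {ea : α → List (Option Bool)} {eb : β → List Bool} {f : α → β}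
    (h : Nonempty (TM2ComputableInPolyTime ea eb f)) :
    ∃ (e : T) (P : Polynomial ℕ), ∀ a n, P.eval (ea a).length ≤ n →
      univ e (ea a) n = eb (f a) := by
  classical
  obtain ⟨M⟩ := h
  obtain ⟨⟨tm, ia, ib⟩, time, out⟩ := M
  have := tm.kFin
  have := tm.ΛFin
  have := tm.σFin
  have := tm.Γk₀Fin
  obtain ⟨D, hD⟩ := micro_eval tm.m
  obtain ⟨G, hG, hblG, hini, hr0, hr1⟩ := exists_closed tm.initialState tm.m tm.k₀
  have hiniG : ∀ (b : Bool) (o : Option (Option Bool)),
      iniCol tm (if b then some (tm.m tm.main) else none) ia o ∈ G := by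
    intro b o
    cases b
    · exact (hini tm.main _ _ fun k hk => by simp [hk]).2
    · exact (hini _ _ _ fun k hk => by simp [hk]).1
  obtain ⟨e, code, he0, he1, he2, he3⟩ := exists_tab G hG (rule0 tm.m) (rule1 tm.initialState)
    (fun b o => iniCol tm (if b then some (tm.m tm.main) else none) ia o)
    (fun c => (c.2 tm.k₁).map ib) hiniG hr0 hr1
  refine ⟨e, Polynomial.C D * time + 1, fun a n hn => ?_⟩
  rw [Polynomial.eval_add, Polynomial.eval_mul, Polynomial.eval_C, Polynomial.eval_one] at hn
  set u := ea a with hu
  set M := u.length + n with hM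
  set S₀ := (initList tm (u.map ia.invFun)).stk with hS₀
  set c₀ : MCfg tm.Γ tm.Λ tm.σ := ⟨some (tm.m tm.main), tm.initialState, S₀⟩ with hc₀
  have hcol : ∀ i, toCol tm.initialState c₀ i =
      iniCol tm (if decide (i = 0) = true then some (tm.m tm.main) else none) ia (u[i]?) := by
    intro i
    rw [hc₀, hS₀, toCol_init]
    simp
  have hrow : row0 e u M = (List.range (M + 1)).map (fun i => code (toCol tm.initialState c₀ i)) := by
    unfold row0
    refine List.map_congr_left fun i _ => ?_
    rw [he2, hcol]
  have hinG : ∀ i, toCol tm.initialState c₀ i ∈ G := by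
    intro i
    rw [hcol]
    exact hiniG _ _
  have hblk : ∀ i, M ≤ i → toCol tm.initialState c₀ i = blank tm.initialState := by
    intro i hi
    rw [hcol]
    have h0 : i ≠ 0 := by omega
    rw [List.getElem?_eq_none (by omega)]
    simp only [h0, decide_false, Bool.false_eq_true, if_false]
    unfold blank iniCol
    refine Prod.ext rfl ?_
    funext k
    dsimp only
    split_ifs with h
    · subst h
      rfl
    · rfl
  obtain ⟨e2, e3⟩ := row_iterate hblG hr0 hr1 he0 he1 M (toCol tm.initialState c₀) hinG hblk n
  have hnext : nextC (rule0 tm.m) (rule1 tm.initialState) (blank tm.initialState) M =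
      colNext tm.initialState tm.m M := rfl
  have e4 := colNext_iterate tm.initialState tm.m M (by omega) c₀ n (by
    intro k
    by_cases hk : k = tm.k₀
    · subst hk
      simp [hc₀, hS₀, initList, hM]
    · simp [hc₀, hS₀, initList, hk, hM])
  obtain ⟨⟨s, hs⟩, hs'⟩ := out a
  have e5 := hD s tm.main tm.initialState S₀ tm.initialState
    (haltList tm ((eb (f a)).map ib.invFun)).stk hs n (by
      have h1 : D * s ≤ D * time.eval u.length := Nat.mul_le_mul_left _ hs'
      omega)
  have hstk : (haltList tm ((eb (f a)).map ib.invFun)).stk tm.k₁ = (eb (f a)).map ib.invFun := by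
    simp [haltList]
  have hlen : (eb (f a)).length ≤ M + 1 := by
    have h1 := tabl_len tm.m c₀ tm.k₁ n
    rw [hc₀, e5] at h1
    simp only [hstk, List.length_map] at h1
    have h2 : (S₀ tm.k₁).length ≤ u.length := by
      by_cases hk : tm.k₁ = tm.k₀
      · rw [hS₀, hk]
        simp [initList]
      · simp [hS₀, initList, hk]
    omega
  unfold univ
  rw [← hM, hrow, e2, List.filterMap_map]
  rw [hnext] at e3 ⊢
  rw [e4] at e3 ⊢
  rw [hc₀, e5] at e3 ⊢
  refine Eq.trans ?_ (tabl_filterMap (eb (f a)) (M + 1) hlen)
  refine List.filterMap_congr fun i _ => ?_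
  simp only [Function.comp]
  rw [he3 _ (e3 i)]
  simp only [toCol, hstk, List.getElem?_map, Option.map_map]
  cases (eb (f a))[i]? <;> simp

end MHon
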