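import Pool.Agent.Lib.MP_1a14d4_lc.DefsU

namespace MHon

open Pool.Agent.Lib.PolyTime

private theorem wordG_bits (x : W) : (enc x : T).word false true =
    x.flatMap (fun b => if b = true then [true, true, false, false] else [true, false]) ++ [false] := by
  induction x with
  | nil => rfl
  | cons b x ih =>
    rw [List.flatMap_cons, List.append_assoc, ← ih]
    cases b <;> rfl

private theorem wordG_nat (n : ℕ) : (enc n : T).word false true =
    (List.range n).flatMap (fun _ => [true, false]) ++ [false] := by
  induction n with
  | zero => rfl
  | succ n ih =>
    rw [List.range_succ_eq_map, List.flatMap_cons, List.flatMap_map, List.append_assoc, ← ih]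
    rfl

theorem polyF_wd (e : T) {s n : W → ℕ} (hs : PolyF s) (hn : PolyF n) :
    PolyF (fun x : W => (wd false true (e, x, s x, n x) : W)) := by
  have h1 : PolyF (fun x : W => (enc x : T).word false true) := by
    refine ((PolyF.flatMap (l := fun x : W => x)
      (h := fun _ b => if b = true then [true, true, false, false] else [true, false])
      PolyF.id (PolyF.iteBool PolyF.snd' (PolyF.const _) (PolyF.const _))).append
      (PolyF.const [false])).congr fun x => (wordG_bits x).symm
  have h2 : ∀ {m : W → ℕ}, PolyF m → PolyF (fun x : W => (enc (m x) : T).word false true) := by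
    intro m hm
    exact (((PolyF.range hm).flatMap (h := fun _ _ => [true, false]) (PolyF.const _)).append
      (PolyF.const [false])).congr fun x => (wordG_nat (m x)).symm
  refine ((PolyF.const true).cons (((PolyF.const (e.word false true)).append
    ((PolyF.const true).cons (h1.append ((PolyF.const true).cons
      ((h2 hs).append (h2 hn)))))))).congr fun x => rfl

theorem length_le_wd (e : T) (x : W) (s n : ℕ) :
    x.length ≤ (wd false true (e, x, s, n) : W).length := by
  have h1 := length_le_sz x
  have h2 : (wd false true (e, x, s, n) : W).length = 2 * sz (e, x, s, n) + 1 := T.length_word _ _ _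
  rw [h2, sz_prod, sz_prod]
  show x.length ≤ 2 * (1 + sz e + (1 + sz x + sz (s, n))) + 1
  omega

end MHon
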