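import Pool.Agent.Lib.MP_1a14d4_lc.DefsU

namespace MHon

open Pool.Agent.Lib.PolyTime

theorem pairWord_length (x a : W) : (pairWord (x, a)).length = x.length + a.length + 1 := by
  simp only [pairWord, List.length_append, List.length_cons, List.length_map]
  omega

theorem runWord_length (x w : W) (L : List (W × Bool)) :
    (runWord (x, w, L)).length = x.length + w.length + 2 + (L.map (fun p => p.1.length + 2)).sum := by
  have h : (L.flatMap (fun p => some p.2 :: (p.1.map some ++ [none]))).length =
      (L.map (fun p => p.1.length + 2)).sum := by
    rw [List.length_flatMap]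
    congr 1
    refine List.map_congr_left fun p _ => ?_
    simp
  simp only [runWord, List.length_append, List.length_cons, List.length_map, h]
  omega

theorem polyF_pairWord : PolyF pairWord := by
  unfold pairWord
  exact (PolyF.fst'.map (h := fun _ b => some b) PolyF.snd'.some).append
    ((PolyF.const none).cons (PolyF.snd'.map (h := fun _ b => some b) PolyF.snd'.some))

theorem polyF_runWord : PolyF runWord := by
  unfold runWord
  refine (PolyF.fst'.map (h := fun _ b => some b) PolyF.snd'.some).append
    ((PolyF.const none).cons ((PolyF.snd'.fst.map (h := fun _ b => some b) PolyF.snd'.some).append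
      ((PolyF.const none).cons ?_)))
  refine PolyF.flatMap (l := fun r : W × W × List (W × Bool) => r.2.2)
    (h := fun _ p => some p.2 :: (p.1.map some ++ [none])) PolyF.snd'.snd ?_
  refine PolyF.snd'.snd.some.cons (PolyF.append ?_ (PolyF.const _))
  exact PolyF.map (l := fun q : (W × W × List (W × Bool)) × (W × Bool) => q.2.1)
    (h := fun _ b => some b) PolyF.snd'.fst PolyF.snd'.some

end MHon
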