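import Pool.Agent.Lib.MP_1a14d4_lc.Parse
import Pool.Agent.Lib.MP_1a14d4_lc.Table
import Pool.Agent.Lib.MP_1a14d4_lc.WordG
import Pool.Agent.Lib.MP_1a14d4_lc.Words
import Pool.Agent.Lib.MP_1a14d4_lc.Dec
import Pool.Agent.Lib.MP_1a14d4_lc.Codes

namespace MHon

open Pool.Agent.Lib.PolyTime Turing

private theorem knPolyEval (p : Polynomial ℕ) {f : W → ℕ} (hf : PolyF f) :
    PolyF (fun x => p.eval (f x)) := by
  induction p using Polynomial.induction_on' with
  | add p q hp hq =>
    exact (hp.natAdd hq).congr fun x => by rw [Polynomial.eval_add]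
  | monomial n a =>
    exact ((PolyF.const a).natMul (hf.natPow n)).congr fun x => by rw [Polynomial.eval_monomial]

/-- the takeWhile and dropWhile parts of `1 ^ m 0 w` -/
private theorem knTake (m : ℕ) (w : W) :
    (List.replicate m true ++ false :: w).takeWhile (fun b => b) = List.replicate m true := by
  induction m with
  | zero => simp
  | succ m ih => simp [List.replicate_succ, ih]

private theorem knDrop (m : ℕ) (w : W) :
    (List.replicate m true ++ false :: w).dropWhile (fun b => b) = false :: w := by
  induction m with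
  | zero => simp
  | succ m ih => simp [List.replicate_succ, ih]

theorem KN_complete {p : Polynomial ℕ} {V : W × W × List (W × Bool) → Bool}
    (hV : Nonempty (TM2ComputableInPolyTime runWord Computability.encodeBool V)) :
    ∃ g : W → W, PolyF g ∧ (∀ x : W, x.length ≤ (g x).length) ∧ ∀ (O : Set W) (x : W),
      (∃ w L, (runWord (x, w, L)).length ≤ 2 ^ p.eval x.length ∧ V (x, w, L) = true ∧ Agrees L O) ↔
        g x ∈ KN O := by
  obtain ⟨e, P, hP⟩ := exists_table hV
  obtain ⟨κ, hκ⟩ := poly_le P
  have hs : PolyF (fun x : W => p.eval x.length) := knPolyEval p (PolyF.length PolyF.id)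
  have hn : PolyF (fun x : W => κ * (p.eval x.length + 2)) :=
    (PolyF.const κ).natMul (hs.natAdd (PolyF.const 2))
  refine ⟨fun x => wd false true (e, x, p.eval x.length, κ * (p.eval x.length + 2)),
    polyF_wd e hs hn, fun x => length_le_wd e x _ _, fun O x => ?_⟩
  have hparse := parseT_wd (e, x, p.eval x.length, κ * (p.eval x.length + 2))
  have h1 : (parseT (wd false true (e, x, p.eval x.length, κ * (p.eval x.length + 2)))).left = e := by
    rw [hparse]; rfl
  have h2 : decW (parseT (wd false true
      (e, x, p.eval x.length, κ * (p.eval x.length + 2)))).right.left = x := by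
    rw [hparse]; exact decW_enc x
  have h3 : decN (parseT (wd false true
      (e, x, p.eval x.length, κ * (p.eval x.length + 2)))).right.right.left = p.eval x.length := by
    rw [hparse]; exact decN_enc _
  have h4 : decN (parseT (wd false true
      (e, x, p.eval x.length, κ * (p.eval x.length + 2)))).right.right.right =
        κ * (p.eval x.length + 2) := by
    rw [hparse]; exact decN_enc _
  have huniv : ∀ (w : W) (L : List (W × Bool)), (runWord (x, w, L)).length ≤ 2 ^ p.eval x.length →
      univ e (runWord (x, w, L)) (2 ^ (κ * (p.eval x.length + 2))) =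
        Computability.encodeBool (V (x, w, L)) := by
    intro w L hL
    apply hP
    refine (hκ _).trans ?_
    rw [mul_comm κ, pow_mul]
    apply Nat.pow_le_pow_left
    rw [pow_add]
    have : 1 ≤ 2 ^ p.eval x.length := Nat.one_le_two_pow
    omega
  have henc : ∀ b : Bool, Computability.encodeBool b = [true] ↔ b = true := by
    intro b; cases b <;> decide
  have hVK : ∀ (w' : W) (L : List (W × Bool)),
      VK (wd false true (e, x, p.eval x.length, κ * (p.eval x.length + 2)), w', L) = true ↔
        (w'.takeWhile (fun b => b)).length = 2 ^ (κ * (p.eval x.length + 2)) ∧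
        (runWord (x, (w'.dropWhile (fun b => b)).tail, L)).length ≤ 2 ^ p.eval x.length ∧
        V (x, (w'.dropWhile (fun b => b)).tail, L) = true := by
    intro w' L
    unfold VK
    simp only [Bool.and_eq_true, decide_eq_true_eq]
    rw [h1, h2, h3, h4]
    constructor
    · rintro ⟨a, b, c⟩
      refine ⟨a, b, ?_⟩
      rw [a, huniv _ _ b, henc] at c
      exact c
    · rintro ⟨a, b, c⟩
      refine ⟨a, b, ?_⟩
      rw [a, huniv _ _ b, henc]
      exact c
  constructor
  · rintro ⟨w, L, hl, hv, hL⟩
    refine ⟨List.replicate (2 ^ (κ * (p.eval x.length + 2))) true ++ false :: w, L, ?_, hL⟩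
    rw [hVK, knTake, knDrop, List.length_replicate, List.tail_cons]
    exact ⟨rfl, hl, hv⟩
  · rintro ⟨w', L, hv, hL⟩
    rw [hVK] at hv
    exact ⟨_, L, hv.2.1, hv.2.2, hL⟩

end MHon
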