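import Pool.Agent.Lib.MP_1a14d4_lc.DefsU
import Pool.Agent.Lib.PolyTime.Bridge

namespace MHon

open Pool.Agent.Lib.PolyTime Turing

/-- the word before the first separator -/
def brFst (u : List (Option Bool)) : W := (u.takeWhile Option.isSome).filterMap (fun o => o)

/-- the part after the first separator -/
def brSnd (u : List (Option Bool)) : List (Option Bool) := (u.dropWhile Option.isSome).tail

theorem brFst_append (x : W) (r : List (Option Bool)) : brFst (x.map some ++ none :: r) = x := by
  unfold brFst
  induction x with
  | nil => simp
  | cons b x ih => simpa using ih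

theorem brSnd_append (x : W) (r : List (Option Bool)) : brSnd (x.map some ++ none :: r) = r := by
  unfold brSnd
  induction x with
  | nil => simp
  | cons b x ih => simpa using ih

theorem polyF_brFst : PolyF brFst := by
  unfold brFst
  exact (PolyF.id.takeWhile (p := fun _ o => Option.isSome o) PolyF.snd'.isSome).filterMap
    (h := fun _ o => o) PolyF.snd'

theorem polyF_brSnd : PolyF brSnd := by
  unfold brSnd
  exact (PolyF.id.dropWhile (p := fun _ o => Option.isSome o) PolyF.snd'.isSome).tail

theorem fp2_of_polyF {f : W → W → W} (h : PolyF (fun p : W × W => f p.1 p.2)) : FP2 f := by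
  have h1 : PolyF (fun u : List (Option Bool) => ((brFst u, (brSnd u).filterMap (fun o => o)) : W × W)) :=
    polyF_brFst.pair (polyF_brSnd.filterMap (h := fun _ o => o) PolyF.snd')
  refine PolyF.tm2 (h.comp h1) ?_
  rintro ⟨x, a⟩
  have h2 : brFst (pairWord (x, a)) = x := brFst_append x _
  have h3 : (brSnd (pairWord (x, a))).filterMap (fun o => o) = a := by
    unfold pairWord
    rw [brSnd_append]
    induction a with
    | nil => rfl
    | cons b a ih => simp
  simp only [h2, h3]

/-- the parser of the facts, from the right to the left -/
def brStep : Option Bool → List (List Bool) → List (List Bool)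
  | none, st => [] :: st
  | some b, s :: st => (b :: s) :: st
  | some _, [] => []

theorem brStep_fact (p : W × Bool) (st : List (List Bool)) :
    (some p.2 :: (p.1.map some ++ [none])).foldr brStep st = (p.2 :: p.1) :: st := by
  have h : ∀ w : W, (w.map some ++ [none]).foldr brStep st = w :: st := by
    intro w
    induction w with
    | nil => rfl
    | cons b w ih =>
      rw [List.map_cons, List.cons_append, List.foldr_cons, ih]
      rfl
  rw [List.foldr_cons, h]
  rfl

theorem brStep_facts (L : List (W × Bool)) :
    (L.flatMap (fun p => some p.2 :: (p.1.map some ++ [none]))).foldr brStep [] =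
      L.map (fun p => p.2 :: p.1) := by
  induction L with
  | nil => rfl
  | cons p L ih => rw [List.flatMap_cons, List.foldr_append, ih, brStep_fact, List.map_cons]

theorem polyF_brStep :
    PolyF (fun p : Option Bool × List (List Bool) => brStep p.1 p.2) := by
  refine PolyF.optionCases (o := fun p : Option Bool × List (List Bool) => p.1)
    (g := fun p => [] :: p.2)
    (h := fun q : (Option Bool × List (List Bool)) × Bool => brStep (some q.2) q.1.2)
    PolyF.fst' ((PolyF.const []).cons PolyF.snd') ?_ ?_ ?_
  · refine PolyF.listCases (l := fun q : (Option Bool × List (List Bool)) × Bool => q.1.2)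
      (g := fun _ => [])
      (h := fun r : ((Option Bool × List (List Bool)) × Bool) × List Bool × List (List Bool) =>
        (r.1.2 :: r.2.1) :: r.2.2) PolyF.fst'.snd (PolyF.const _)
      ((PolyF.fst'.snd.cons PolyF.snd'.fst).cons PolyF.snd'.snd) ?_ ?_
    · intro x hx
      rw [hx]
      rfl
    · intro x b t hx
      rw [hx]
      rfl
  · intro x hx
    rw [hx]
    rfl
  · intro x b hx
    rw [hx]

/-- the facts written by a word -/
def brFacts (u : List (Option Bool)) : List (W × Bool) :=
  (u.foldr brStep []).map (fun s => (s.tail, s.head?.getD false))

theorem brFacts_facts (L : List (W × Bool)) :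
    brFacts (L.flatMap (fun p => some p.2 :: (p.1.map some ++ [none]))) = L := by
  unfold brFacts
  rw [brStep_facts, List.map_map]
  conv_rhs => rw [← List.map_id L]
  exact List.map_congr_left fun p _ => rfl

theorem polyF_brFacts : PolyF brFacts := by
  unfold brFacts
  have h1 : PolyF (fun u : List (Option Bool) => u.foldr brStep []) := by
    refine PolyF.foldr_add (l := fun u : List (Option Bool) => u) (i := fun _ => ([] : List (List Bool)))
      (f := fun _ b c => brStep b c) PolyF.id (PolyF.const _) (polyF_brStep.comp PolyF.snd')
      (fun _ => 3) (PBd.const 3) ?_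
    intro x c b _
    rcases b with _ | b
    · show sz (([] : List Bool) :: c) ≤ _
      rw [sz_cons]
      simp only [sz_nil]
      omega
    · rcases c with _ | ⟨s, c⟩
      · show sz ([] : List (List Bool)) ≤ _
        simp
      · show sz ((b :: s) :: c) ≤ _
        have := sz_bool_le b
        simp only [sz_cons]
        omega
  exact h1.map (h := fun _ s => (s.tail, s.head?.getD false))
    (PolyF.snd'.tail.pair (PolyF.snd'.head?.getD (PolyF.const false)))

theorem tm2_of_polyF {V : W × W × List (W × Bool) → Bool} (h : PolyF V) :
    Nonempty (TM2ComputableInPolyTime runWord Computability.encodeBool V) := by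
  have h1 : PolyF (fun u : List (Option Bool) =>
      ((brFst u, brFst (brSnd u), brFacts (brSnd (brSnd u))) : W × W × List (W × Bool))) :=
    polyF_brFst.pair ((polyF_brFst.comp polyF_brSnd).pair
      (polyF_brFacts.comp (polyF_brSnd.comp polyF_brSnd)))
  refine PolyF.tm2_bool (h.comp h1) ?_
  rintro ⟨x, w, L⟩
  have h2 : brFst (runWord (x, w, L)) = x := brFst_append x _
  have h3 : brSnd (runWord (x, w, L)) = w.map some ++ none ::
      L.flatMap (fun p => some p.2 :: (p.1.map some ++ [none])) := brSnd_append x _
  simp only [h2, h3, brFst_append, brSnd_append, brFacts_facts]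

end MHon
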