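import Pool.Agent.Lib.MP_1a14d4_lc.DefsU

namespace MHon

open Pool.Agent.Lib.PolyTime

private theorem pow_iter (F i : ℕ) :
    (fun a => min (a + a) (F + 1))^[i] 1 = min (2 ^ i) (F + 1) := by
  induction i with
  | zero => simp
  | succ i ih =>
    rw [Function.iterate_succ_apply', ih, pow_succ]
    omega

private theorem polyF_min {α : Type*} [TEnc α] {f g : α → ℕ} (hf : PolyF f) (hg : PolyF g) :
    PolyF (fun x => min (2 ^ g x) (f x + 1)) := by
  refine (PolyF.natIterate (n := g) (f := fun x a => min (a + a) (f x + 1)) (g := fun _ => 1) hg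
    ((PolyF.snd'.natAdd PolyF.snd').natMin (hf.comp PolyF.fst').succ) (PolyF.const 1) ?_).congr
    fun x => ?_
  · obtain ⟨B, hB⟩ := hf.pbdNat.add (PBd.const 1)
    refine ⟨B, fun x i _ => ?_⟩
    have := hB x
    beta_reduce at this
    rw [pow_iter, sz_nat]
    exact (min_le_right _ _).trans this
  · exact pow_iter _ _

theorem polyF_le_two_pow {α : Type*} [TEnc α] {f g : α → ℕ} (hf : PolyF f) (hg : PolyF g) :
    PolyF (fun x => decide (f x ≤ 2 ^ g x)) := by
  refine (hf.natLe (polyF_min hf hg)).congr fun x => ?_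
  rw [decide_eq_decide]
  omega

theorem polyF_eq_two_pow {α : Type*} [TEnc α] {f g : α → ℕ} (hf : PolyF f) (hg : PolyF g) :
    PolyF (fun x => decide (f x = 2 ^ g x)) := by
  refine (hf.natEq (polyF_min hf hg)).congr fun x => ?_
  rw [decide_eq_decide]
  omega

end MHon
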