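import Pool.Agent.Lib.MP_1a14d4_lc.Parse
import Pool.Agent.Lib.MP_1a14d4_lc.Univ
import Pool.Agent.Lib.MP_1a14d4_lc.Pow
import Pool.Agent.Lib.MP_1a14d4_lc.Words

namespace MHon

open Pool.Agent.Lib.PolyTime

theorem polyF_VK : PolyF VK := by
  have hz : PolyF (fun r : W × W × List (W × Bool) => parseT r.1) := polyF_parseT.comp PolyF.fst'
  have hw : PolyF (fun r : W × W × List (W × Bool) => r.2.1) := PolyF.fst'.comp PolyF.snd'
  have hL : PolyF (fun r : W × W × List (W × Bool) => r.2.2) := PolyF.snd'.comp PolyF.snd'
  have htw : PolyF (fun r : W × W × List (W × Bool) => r.2.1.takeWhile (fun b => b)) :=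
    PolyF.takeWhile (p := fun _ b => b) hw PolyF.snd'
  have hdw : PolyF (fun r : W × W × List (W × Bool) => (r.2.1.dropWhile (fun b => b)).tail) :=
    (PolyF.dropWhile (p := fun _ b => b) hw PolyF.snd').tail
  have hr : PolyF (fun r : W × W × List (W × Bool) => (parseT r.1).right) := PolyF.right.comp hz
  have hrr : PolyF (fun r : W × W × List (W × Bool) => (parseT r.1).right.right) :=
    PolyF.right.comp hr
  have hn : PolyF (fun r : W × W × List (W × Bool) => decN (parseT r.1).right.right.right) :=
    polyF_decN.comp (PolyF.right.comp hrr)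
  have hs : PolyF (fun r : W × W × List (W × Bool) => decN (parseT r.1).right.right.left) :=
    polyF_decN.comp (PolyF.left.comp hrr)
  have hx : PolyF (fun r : W × W × List (W × Bool) => decW (parseT r.1).right.left) :=
    polyF_decW.comp (PolyF.left.comp hr)
  have he : PolyF (fun r : W × W × List (W × Bool) => (parseT r.1).left) := PolyF.left.comp hz
  have hrw : PolyF (fun r : W × W × List (W × Bool) => runWord (decW (parseT r.1).right.left,
      (r.2.1.dropWhile (fun b => b)).tail, r.2.2)) :=
    polyF_runWord.comp (hx.pair (hdw.pair hL))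
  have hu : PolyF (fun r : W × W × List (W × Bool) => univ (parseT r.1).left
      (runWord (decW (parseT r.1).right.left, (r.2.1.dropWhile (fun b => b)).tail, r.2.2))
      (r.2.1.takeWhile (fun b => b)).length) :=
    polyF_univ.comp (he.pair (hrw.pair htw.length))
  exact (polyF_eq_two_pow htw.length hn).and ((polyF_le_two_pow hrw.length hs).and
    (PolyF.eqConst [true] hu))

end MHon
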