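import Mathlib

namespace MHon

/-- recursively enumerable relations are closed under projection -/
theorem re_exists {α β : Type*} [Primcodable α] [Primcodable β] {R : α × β → Prop}
    (h : REPred R) : REPred (fun a : α => ∃ b, R (a, b)) := by
  obtain ⟨c, hc⟩ := Nat.Partrec.Code.exists_code.1 h
  have hR : ∀ (a : α) (b : β), R (a, b) ↔
      (Nat.Partrec.Code.eval c (Encodable.encode (a, b))).Dom := by
    intro a b
    rw [hc]
    simp only [Encodable.encodek, Part.coe_some, Part.bind_some, Part.map_Dom]
    exact ⟨fun h => ⟨h, trivial⟩, fun h => h.1⟩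
  have e0 : Computable (fun p : α × ℕ => p.2.unpair) :=
    Primrec.unpair.to_comp.comp Computable.snd
  have e1 : Computable (fun p : α × ℕ => p.2.unpair.1) := Computable.fst.comp e0
  have e2 : Computable (fun p : α × ℕ => (Encodable.decode p.2.unpair.1 : Option β)) :=
    Computable.decode.comp e1
  have e3 : Computable (fun p : α × ℕ => p.2.unpair.2) := Computable.snd.comp e0
  have e4 : Computable (fun p : (α × ℕ) × β => p.1.2.unpair.2) := e3.comp Computable.fst
  have e5 : Computable (fun p : (α × ℕ) × β => (p.1.1, p.2)) :=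
    Computable.pair (Computable.fst.comp Computable.fst) Computable.snd
  have e6 : Computable (fun p : (α × ℕ) × β => Encodable.encode (p.1.1, p.2)) :=
    Computable.encode.comp e5
  have e7 : Computable (fun p : (α × ℕ) × β => ((p.1.2.unpair.2, c), Encodable.encode (p.1.1, p.2))) :=
    Computable.pair (Computable.pair e4 (Computable.const c)) e6
  have e8 := Nat.Partrec.Code.primrec_evaln.to_comp.comp e7
  dsimp only at e8
  have e9 : Computable₂ (fun (p : α × ℕ) (b : β) => Nat.Partrec.Code.evaln p.2.unpair.2 c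
        (Encodable.encode (p.1, b))) := e8
  have hf : Computable₂ (fun (a : α) (n : ℕ) =>
      (Encodable.decode n.unpair.1 : Option β).bind fun b =>
        Nat.Partrec.Code.evaln n.unpair.2 c (Encodable.encode (a, b))) :=
    Computable.option_bind e2 e9
  have h2 := (Partrec.rfindOpt hf).dom_re
  refine h2.of_eq fun a => ?_
  rw [Nat.rfindOpt_dom]
  constructor
  · rintro ⟨n, x, hx⟩
    rw [Option.mem_def, Option.bind_eq_some_iff] at hx
    obtain ⟨b, _, hb⟩ := hx
    refine ⟨b, (hR a b).2 ?_⟩
    exact Part.dom_iff_mem.2 ⟨x, Nat.Partrec.Code.evaln_sound hb⟩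
  · rintro ⟨b, hb⟩
    obtain ⟨x, hx⟩ := Part.dom_iff_mem.1 ((hR a b).1 hb)
    obtain ⟨k, hk⟩ := Nat.Partrec.Code.evaln_complete.1 hx
    refine ⟨Nat.pair (Encodable.encode b) k, x, ?_⟩
    rw [Nat.unpair_pair, Option.mem_def, Encodable.encodek]
    exact hk

/-- the conjunction of two recursively enumerable predicates -/
theorem re_and {α : Type*} [Primcodable α] {p q : α → Prop} (hp : REPred p) (hq : REPred q) :
    REPred (fun a => p a ∧ q a) := by
  have h : Partrec (fun a => (Part.assert (p a) fun _ => Part.some ()).bind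
      fun _ => Part.assert (q a) fun _ => Part.some ()) :=
    Partrec.bind hp (hq.comp Computable.fst)
  refine h.dom_re.of_eq fun a => ?_
  rw [Part.bind_dom]
  exact ⟨fun ⟨h1, h2⟩ => ⟨h1.1, h2.1⟩, fun ⟨h1, h2⟩ => ⟨⟨h1, trivial⟩, ⟨h2, trivial⟩⟩⟩

/-- substitution -/
theorem re_comp {α β : Type*} [Primcodable α] [Primcodable β] {p : β → Prop} (hp : REPred p)
    {f : α → β} (hf : Computable f) : REPred (fun a => p (f a)) :=
  Partrec.comp hp hf

end MHon
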