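import Pool.Agent.Lib.MP_1a14d4_lc.Parse
import Pool.Agent.Lib.MP_1a14d4_lc.Dec
import Pool.Agent.Lib.MP_1a14d4_lc.Words

namespace MHon

open Pool.Agent.Lib.PolyTime

private theorem size_left (t : T) : t.left.size ≤ t.size := by
  cases t with
  | nil => simp [T.left]
  | node l r => simp only [T.left, T.size_node]; omega

private theorem size_right (t : T) : t.right.size ≤ t.size := by
  cases t with
  | nil => simp [T.right]
  | node l r => simp only [T.right, T.size_node]; omega

private theorem knc_facts (L : List (W × Bool)) :
    L.length ≤ (L.map (fun p => p.1.length + 2)).sum ∧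
      ∀ p ∈ L, p.1.length ≤ (L.map (fun p => p.1.length + 2)).sum := by
  induction L with
  | nil => simp
  | cons a L ih =>
    simp only [List.length_cons, List.map_cons, List.sum_cons, List.mem_cons]
    refine ⟨by omega, ?_⟩
    rintro p (rfl | hp)
    · omega
    · have := ih.2 p hp
      omega

/-- what an accepted triple satisfies -/
private theorem knc_of_VK {z w' : W} {L : List (W × Bool)} (h : VK (z, w', L) = true) :
    w'.length ≤ 2 ^ z.length + 1 + (w'.dropWhile (fun b => b)).tail.length ∧
    (w'.dropWhile (fun b => b)).tail.length + 2 + (L.map (fun p => p.1.length + 2)).sum ≤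
      2 ^ z.length := by
  simp only [VK, Bool.and_eq_true, decide_eq_true_eq] at h
  obtain ⟨h1, h2, -⟩ := h
  have hs := size_parseT z
  have e1 : decN (parseT z).right.right.right ≤ z.length :=
    (decN_le _).trans ((size_right _).trans ((size_right _).trans ((size_right _).trans hs)))
  have e2 : decN (parseT z).right.right.left ≤ z.length :=
    (decN_le _).trans ((size_left _).trans ((size_right _).trans ((size_right _).trans hs)))
  have e3 : 2 ^ decN (parseT z).right.right.right ≤ 2 ^ z.length :=
    Nat.pow_le_pow_right (by norm_num) e1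
  have e4 : 2 ^ decN (parseT z).right.right.left ≤ 2 ^ z.length :=
    Nat.pow_le_pow_right (by norm_num) e2
  have e5 := congrArg List.length (List.takeWhile_append_dropWhile (p := fun b : Bool => b) (l := w'))
  rw [List.length_append] at e5
  have e6 : (w'.dropWhile (fun b => b)).length ≤ 1 + (w'.dropWhile (fun b => b)).tail.length := by
    rw [List.length_tail]
    omega
  rw [runWord_length] at h2
  refine ⟨by omega, by omega⟩

theorem VK_bound {z w' : W} {L : List (W × Bool)} (h : VK (z, w', L) = true) :
    (runWord (z, w', L)).length ≤ 2 ^ (z.length + 3) := by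
  obtain ⟨h1, h2⟩ := knc_of_VK h
  rw [runWord_length]
  have h3 : z.length < 2 ^ z.length := Nat.lt_two_pow_self
  have h4 : 2 ^ (z.length + 3) = 2 ^ z.length * 8 := by rw [pow_add]; norm_num
  omega

theorem KN_cert : Cert KN := by
  rintro O z ⟨w', L, h, hL⟩
  obtain ⟨-, h2⟩ := knc_of_VK h
  obtain ⟨h3, h4⟩ := knc_facts L
  refine ⟨L, by omega, fun p hp => ?_, hL, fun O' hO' => ⟨w', L, h, hO'⟩⟩
  have := h4 p hp
  omega

end MHon
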