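import Pool.Agent.Lib.MP_1a14d4_lc.DefsC

namespace MHon

theorem tag_length (k i : ℕ) (z : W) : (tag k i z).length = k + i + z.length + 3 := by
  simp only [tag, List.length_cons, List.length_append, List.length_replicate]
  omega

private theorem unary_inj {a b : ℕ} {u v : W}
    (h : List.replicate a true ++ false :: u = List.replicate b true ++ false :: v) :
    a = b ∧ u = v := by
  induction a generalizing b with
  | zero =>
    cases b with
    | zero => simpa using h
    | succ b => simp [List.replicate_succ] at h
  | succ a ih =>
    cases b with
    | zero => simp [List.replicate_succ] at h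
    | succ b =>
      simp only [List.replicate_succ, List.cons_append, List.cons.injEq, true_and] at h
      obtain ⟨h1, h2⟩ := ih h
      exact ⟨by rw [h1], h2⟩

theorem tag_inj {k i k' i' : ℕ} {z z' : W} (h : tag k i z = tag k' i' z') :
    k = k' ∧ i = i' ∧ z = z' := by
  simp only [tag, List.cons.injEq, true_and] at h
  obtain ⟨h1, h2⟩ := unary_inj h
  obtain ⟨h3, h4⟩ := unary_inj h2
  exact ⟨h1, h3, h4⟩

theorem tw_length (c t : W) : (tw c t).length = 2 * c.length + t.length + 2 := by
  simp only [tw, List.length_cons, List.length_append, List.length_replicate]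
  omega

theorem tw_inj {c t c' t' : W} (h : tw c t = tw c' t') : c = c' ∧ t = t' := by
  simp only [tw, List.cons.injEq, true_and] at h
  obtain ⟨h1, h2⟩ := unary_inj h
  exact List.append_inj h2 h1

theorem tag_ne_tw (k i : ℕ) (z c t : W) : tag k i z ≠ tw c t := by
  simp [tag, tw]

end MHon
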