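import Pool.Agent.Lib.MP_1a14d4_lc.VKPoly
import Pool.Agent.Lib.MP_1a14d4_lc.KNCert
import Pool.Agent.Lib.MP_1a14d4_lc.Bridge
import Pool.Agent.Lib.MP_1a14d4_lc.Tag

namespace MHon

open Pool.Agent.Lib.PolyTime

/-- the predicate for the words of the first kind -/
private def anV1 (k : ℕ) (r : W × W × List (W × Bool)) : Bool :=
  decide (r.1.head? = some true) &&
    (decide (r.2.2.head? = some (tag k 0 r.1.tail, false)) && VK (r.1.tail, r.2.1, r.2.2.tail))

/-- the tail of the first query -/
private def anT (r : W × W × List (W × Bool)) : W :=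
  (r.2.2.headD (([] : W), false)).1.drop (r.1.tail.length + r.1.tail.length + 2)

/-- the predicate for the words of the second kind -/
private def anV2 (r : W × W × List (W × Bool)) : Bool :=
  decide (r.1.head? = some false) &&
    (decide (r.2.2 = [(tw r.1.tail (anT r), true)]) &&
      decide ((anT r).length = 2 ^ r.1.tail.length))

private theorem polyF_tag (k : ℕ) {α : Type*} [TEnc α] {f : α → W} (hf : PolyF f) :
    PolyF (fun x => tag k 0 (f x)) :=
  (PolyF.const false).cons ((PolyF.const (List.replicate k true)).append
    ((PolyF.const false).cons ((PolyF.const false).cons hf)))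

private theorem polyF_tw {α : Type*} [TEnc α] {f g : α → W} (hf : PolyF f) (hg : PolyF g) :
    PolyF (fun x => tw (f x) (g x)) := by
  have h1 : PolyF (fun x => (f x).map (fun _ => true)) := hf.map (PolyF.const true)
  refine ((PolyF.const true).cons (h1.append ((PolyF.const false).cons (hf.append hg)))).congr ?_
  intro x
  rw [List.map_const']
  rfl

private theorem polyF_headD' {α β : Type*} [TEnc α] [TEnc β] {f : α → List β} {g : α → β}
    (hf : PolyF f) (hg : PolyF g) : PolyF (fun x => (f x).headD (g x)) :=
  (hf.head?.getD hg).congr fun x => by rw [List.headD_eq_head?_getD]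

private theorem polyF_anV1 (k : ℕ) : PolyF (anV1 k) := by
  have h1 : PolyF (fun r : W × W × List (W × Bool) => r.1) := PolyF.fst'
  have h2 : PolyF (fun r : W × W × List (W × Bool) => r.2.2) := PolyF.snd'.snd
  exact (h1.head?.eq (PolyF.const _)).and ((h2.head?.eq
    ((polyF_tag k h1.tail).pair (PolyF.const false)).some).and
      (polyF_VK.comp (h1.tail.pair (PolyF.snd'.fst.pair h2.tail))))

private theorem polyF_anT : PolyF anT := by
  have h1 : PolyF (fun r : W × W × List (W × Bool) => r.1) := PolyF.fst'
  have h2 : PolyF (fun r : W × W × List (W × Bool) => r.2.2) := PolyF.snd'.snd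
  exact ((h1.tail.length.natAdd h1.tail.length).natAdd (PolyF.const 2)).drop
    (polyF_headD' h2 (PolyF.const _)).fst

private theorem polyF_anV2 : PolyF anV2 := by
  have h1 : PolyF (fun r : W × W × List (W × Bool) => r.1) := PolyF.fst'
  have h2 : PolyF (fun r : W × W × List (W × Bool) => r.2.2) := PolyF.snd'.snd
  exact (h1.head?.eq (PolyF.const _)).and ((h2.eq
    ((polyF_tw h1.tail polyF_anT).pair (PolyF.const true)).singleton).and
      (polyF_eq_two_pow polyF_anT.length h1.tail.length))

private theorem anV1_iff (k : ℕ) (y w : W) (L : List (W × Bool)) : anV1 k (y, w, L) = true ↔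
    ∃ z L', y = true :: z ∧ L = (tag k 0 z, false) :: L' ∧ VK (z, w, L') = true := by
  unfold anV1
  simp only [Bool.and_eq_true, decide_eq_true_eq]
  constructor
  · rintro ⟨h1, h2, h3⟩
    cases y with
    | nil => simp at h1
    | cons b z =>
      cases L with
      | nil => simp at h2
      | cons q L' =>
        simp only [List.head?_cons, Option.some.injEq, List.tail_cons] at h1 h2 h3
        exact ⟨z, L', by rw [h1], by rw [h2], h3⟩
  · rintro ⟨z, L', rfl, rfl, h⟩
    exact ⟨rfl, rfl, h⟩

private theorem drop_tw (c t : W) : (tw c t).drop (c.length + c.length + 2) = t := by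
  have h1 : tw c t = (true :: (List.replicate c.length true ++ false :: c)) ++ t := by
    simp [tw]
  have h2 : c.length + c.length + 2 =
      (true :: (List.replicate c.length true ++ false :: c)).length := by
    simp only [List.length_cons, List.length_append, List.length_replicate]
    omega
  rw [h1, h2, List.drop_left]

private theorem anV2_iff (y w : W) (L : List (W × Bool)) : anV2 (y, w, L) = true ↔
    ∃ c t, y = false :: c ∧ L = [(tw c t, true)] ∧ t.length = 2 ^ c.length := by
  unfold anV2
  simp only [Bool.and_eq_true, decide_eq_true_eq]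
  constructor
  · rintro ⟨h1, h2, h3⟩
    cases y with
    | nil => simp at h1
    | cons b c =>
      simp only [List.head?_cons, Option.some.injEq] at h1
      exact ⟨c, anT (b :: c, w, L), by rw [h1], h2, h3⟩
  · rintro ⟨c, t, rfl, rfl, h⟩
    have h1 : anT (false :: c, w, [(tw c t, true)]) = t := drop_tw c t
    refine ⟨rfl, ?_, ?_⟩
    · rw [h1]
      rfl
    · rw [h1]
      exact h

theorem AN_mem (O : Set W) (k : ℕ) : NEXPO O (AN O k) := by
  refine ⟨Polynomial.X + Polynomial.C (k + 7), fun r => anV1 k r || anV2 r,
    tm2_of_polyF ((polyF_anV1 k).or polyF_anV2), fun x => ?_⟩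
  have hp : (Polynomial.X + Polynomial.C (k + 7) : Polynomial ℕ).eval x.length =
      x.length + (k + 7) := by
    rw [Polynomial.eval_add, Polynomial.eval_X, Polynomial.eval_C]
  rw [hp]
  constructor
  · rintro (⟨z, rfl, htag, w, L, hV, hL⟩ | ⟨c, t, rfl, ht, hO⟩)
    · refine ⟨w, (tag k 0 z, false) :: L, ?_, ?_, ?_⟩
      · have h1 := VK_bound hV
        rw [runWord_length] at h1
        rw [runWord_length, List.map_cons, List.sum_cons]
        simp only [tag_length, List.length_cons]
        have h2 : z.length + k + 6 < 2 ^ (z.length + k + 6) := Nat.lt_two_pow_self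
        have h3 : 2 ^ (z.length + 3) ≤ 2 ^ (z.length + k + 6) :=
          Nat.pow_le_pow_right (by norm_num) (by omega)
        have h4 : 2 ^ (z.length + 1 + (k + 7)) = 4 * 2 ^ (z.length + k + 6) := by
          rw [show z.length + 1 + (k + 7) = (z.length + k + 6) + 2 by omega, pow_add]
          ring
        rw [h4]
        omega
      · show (anV1 k _ || anV2 _) = true
        rw [(anV1_iff k _ _ _).2 ⟨z, L, rfl, rfl, hV⟩]
        rfl
      · intro p hp
        rcases List.mem_cons.1 hp with h | h
        · rw [h]
          simpa using htag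
        · exact hL p h
    · refine ⟨[], [(tw c t, true)], ?_, ?_, ?_⟩
      · rw [runWord_length, List.map_cons, List.sum_cons]
        simp only [tw_length, List.length_cons, List.length_nil, List.map_nil, List.sum_nil, ht]
        have h2 : c.length + k + 6 < 2 ^ (c.length + k + 6) := Nat.lt_two_pow_self
        have h3 : 2 ^ c.length ≤ 2 ^ (c.length + k + 6) :=
          Nat.pow_le_pow_right (by norm_num) (by omega)
        have h4 : 2 ^ (c.length + 1 + (k + 7)) = 4 * 2 ^ (c.length + k + 6) := by
          rw [show c.length + 1 + (k + 7) = (c.length + k + 6) + 2 by omega, pow_add]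
          ring
        rw [h4]
        omega
      · show (anV1 k _ || anV2 _) = true
        rw [(anV2_iff _ _ _).2 ⟨c, t, rfl, rfl, ht⟩, Bool.or_true]
      · intro p hp
        rw [List.mem_singleton] at hp
        rw [hp]
        simpa using hO
  · rintro ⟨w, L, _, hV, hL⟩
    rcases Bool.or_eq_true_iff.1 hV with h | h
    · obtain ⟨z, L', rfl, rfl, h'⟩ := (anV1_iff k _ _ _).1 h
      refine Or.inl ⟨z, rfl, ?_, w, L', h', fun p hp => hL p (List.mem_cons_of_mem _ hp)⟩
      have := hL (tag k 0 z, false) List.mem_cons_self
      simpa using this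
    · obtain ⟨c, t, rfl, rfl, h'⟩ := (anV2_iff _ _ _).1 h
      refine Or.inr ⟨c, t, rfl, h', ?_⟩
      have := hL (tw c t, true) List.mem_cons_self
      simpa using this

end MHon
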