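import Pool.Agent.Lib.MP_1a14d4_lc.RURe

/-!
# The complete sets of the copies are recursively enumerable relative to the oracle
-/

namespace MHon

/-- the facts about the block of `z` in the copy `k`, if the block is `a` -/
private def arFacts (k : ℕ) (z a : W) : List (W × Bool) :=
  (List.range (z.length + 1)).map fun i => (tag k i z, a.getD i false)

private lemma ar_primrec_tag (k : ℕ) : Primrec fun p : ℕ × W => tag k p.1 p.2 := by
  have h1 : Primrec fun p : ℕ × W => List.replicate p.1 true := by
    have h : Primrec fun p : ℕ × W => (List.range p.1).map (fun _ => true) :=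
      Primrec.list_map (Primrec.list_range.comp Primrec.fst) (Primrec.const true).to₂
    exact h.of_eq fun p => by simp
  have h2 : Primrec fun p : ℕ × W => List.replicate p.1 true ++ false :: p.2 :=
    Primrec.list_append.comp h1
      (Primrec.list_cons.comp (Primrec.const false) Primrec.snd)
  have h3 : Primrec fun p : ℕ × W =>
      List.replicate k true ++ false :: (List.replicate p.1 true ++ false :: p.2) :=
    Primrec.list_append.comp (Primrec.const _)
      (Primrec.list_cons.comp (Primrec.const false) h2)
  exact Primrec.list_cons.comp (Primrec.const false) h3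

private lemma ar_primrec_facts (k : ℕ) : Primrec fun p : W × W => arFacts k p.1 p.2 := by
  have h1 : Primrec fun p : W × W => List.range (p.1.length + 1) :=
    Primrec.list_range.comp (Primrec.succ.comp (Primrec.list_length.comp Primrec.fst))
  have h2 : Primrec₂ fun (p : W × W) (i : ℕ) => (tag k i p.1, p.2.getD i false) := by
    have h3 : Primrec fun t : (W × W) × ℕ => tag k t.2 t.1.1 :=
      (ar_primrec_tag k).comp
        (Primrec.pair Primrec.snd (Primrec.fst.comp Primrec.fst))
    have h4 : Primrec fun t : (W × W) × ℕ => t.1.2.getD t.2 false :=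
      (Primrec.list_getD false).comp (Primrec.snd.comp Primrec.fst) Primrec.snd
    exact (Primrec.pair h3 h4).to₂
  exact Primrec.list_map h1 h2

private lemma ar_primrec_outF : Primrec fun p : W × W => outF p.1 p.2 := by
  have hstrip : Primrec strip := by
    have h := Primrec.list_reverse.comp
      ((Primrec.list_dropWhile (p := fun b : Bool => !b) Primrec.not).comp
        (Primrec.list_reverse (α := Bool)))
    exact h
  have h1 : PrimrecPred fun p : W × W => p.2.head? = some true :=
    Primrec.eq.comp (Primrec.list_head?.comp Primrec.snd) (Primrec.const (some true))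
  have h2 : Primrec fun p : W × W => false :: strip p.2.tail :=
    Primrec.list_cons.comp (Primrec.const false)
      (hstrip.comp (Primrec.list_tail.comp Primrec.snd))
  have h3 : Primrec fun p : W × W => true :: p.1 :=
    Primrec.list_cons.comp (Primrec.const true) Primrec.fst
  exact (Primrec.ite h1 h2 h3).of_eq fun p => rfl

private lemma ar_re_of_primrec {α : Type*} [Primcodable α] {p : α → Prop} (h : PrimrecPred p) :
    REPred p := by
  obtain ⟨i, h⟩ := h
  exact ComputablePred.to_re ⟨i, h.to_comp⟩

private lemma ar_facts_agree (O : Set W) (k : ℕ) (z : W) :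
    Agrees (arFacts k z (block O k z)) O := by
  intro p hp
  unfold arFacts at hp
  rw [List.mem_map] at hp
  obtain ⟨i, hi, rfl⟩ := hp
  rw [List.mem_range] at hi
  have h1 : (block O k z).getD i false = bitO O k z i := by
    unfold block
    rw [List.getD_eq_getElem _ _ (by simpa using hi)]
    simp
  show tag k i z ∈ O ↔ (block O k z).getD i false = true
  rw [h1]
  unfold bitO
  simp

private lemma ar_block_of_agree (O : Set W) (k : ℕ) (z a : W) (ha : a.length = z.length + 1)
    (h : Agrees (arFacts k z a) O) : a = block O k z := by
  apply List.ext_getElem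
  · rw [ha]; simp [block]
  · intro i h1 h2
    have hi : i < z.length + 1 := by rw [← ha]; exact h1
    have h3 := h (tag k i z, a.getD i false) (by
      unfold arFacts
      rw [List.mem_map]
      exact ⟨i, List.mem_range.2 hi, rfl⟩)
    have h4 : a.getD i false = a[i] := List.getD_eq_getElem _ _ h1
    have h5 : (block O k z)[i] = bitO O k z i := by
      simp [block]
    rw [h5]
    simp only [h4] at h3
    unfold bitO
    by_cases hO : tag k i z ∈ O
    · rw [h3.1 hO]; simp [hO]
    · have : a[i] = false := by
        by_contra hne
        exact hO (h3.2 (by simpa using hne))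
      rw [this]; simp [hO]

theorem AR_mem (O : Set W) (k : ℕ) : REO O (AR O k) := by
  refine ⟨fun r => ∃ t : W × W × List (W × Bool),
    (t.2.1.length = t.1.length + 1 ∧ r.2 = arFacts k t.1 t.2.1 ++ t.2.2 ∧
      outF t.1 t.2.1 = r.1) ∧ RU (t.1, t.2.2), ?_, ?_⟩
  · have hz : Primrec fun s : (W × List (W × Bool)) × (W × W × List (W × Bool)) => s.2.1 :=
      Primrec.fst.comp Primrec.snd
    have ha : Primrec fun s : (W × List (W × Bool)) × (W × W × List (W × Bool)) => s.2.2.1 :=
      Primrec.fst.comp (Primrec.snd.comp Primrec.snd)
    have hL : Primrec fun s : (W × List (W × Bool)) × (W × W × List (W × Bool)) => s.2.2.2 :=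
      Primrec.snd.comp (Primrec.snd.comp Primrec.snd)
    have p1 : PrimrecPred fun s : (W × List (W × Bool)) × (W × W × List (W × Bool)) =>
        s.2.2.1.length = s.2.1.length + 1 :=
      Primrec.eq.comp (Primrec.list_length.comp ha)
        (Primrec.succ.comp (Primrec.list_length.comp hz))
    have p2 : PrimrecPred fun s : (W × List (W × Bool)) × (W × W × List (W × Bool)) =>
        s.1.2 = arFacts k s.2.1 s.2.2.1 ++ s.2.2.2 :=
      Primrec.eq.comp (Primrec.snd.comp Primrec.fst)
        (Primrec.list_append.comp ((ar_primrec_facts k).comp (Primrec.pair hz ha)) hL)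
    have p3 : PrimrecPred fun s : (W × List (W × Bool)) × (W × W × List (W × Bool)) =>
        outF s.2.1 s.2.2.1 = s.1.1 :=
      Primrec.eq.comp (ar_primrec_outF.comp (Primrec.pair hz ha))
        (Primrec.fst.comp Primrec.fst)
    have q1 := ar_re_of_primrec (p1.and (p2.and p3))
    have q2 : REPred fun s : (W × List (W × Bool)) × (W × W × List (W × Bool)) =>
        RU (s.2.1, s.2.2.2) :=
      re_comp RU_re (Primrec.pair hz hL).to_comp
    exact re_exists (re_and q1 q2)
  · intro y
    constructor
    · rintro ⟨z, ⟨L', hRU, hL'⟩, rfl⟩
      refine ⟨arFacts k z (block O k z) ++ L', ⟨(z, block O k z, L'), ⟨?_, rfl, rfl⟩, hRU⟩, ?_⟩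
      · simp [block]
      · intro p hp
        rcases List.mem_append.1 hp with hp | hp
        · exact ar_facts_agree O k z p hp
        · exact hL' p hp
    · rintro ⟨L, ⟨⟨z, a, L'⟩, ⟨h1, h2, h3⟩, h4⟩, hL⟩
      simp only at h1 h2 h3 h4
      rw [h2] at hL
      have h5 : Agrees (arFacts k z a) O := fun p hp => hL p (List.mem_append_left _ hp)
      have h6 : Agrees L' O := fun p hp => hL p (List.mem_append_right _ hp)
      have h7 := ar_block_of_agree O k z a h1 h5
      refine ⟨z, ⟨L', h4, h6⟩, ?_⟩
      show outF z (block O k z) = y
      rw [← h7]; exact h3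

end MHon
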