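import Pool.Agent.Lib.MP_1a14d4_lc.DefsC

namespace MHon

theorem answers_length (O : Set W) (q : W → W → W) (x : W) (n : ℕ) :
    (answers O q x n).length = n := by
  induction n with
  | zero => rfl
  | succ n ih => simp only [answers, List.length_append, ih, List.length_singleton]

open Classical in
theorem answers_congr {O O' : Set W} {q : W → W → W} {x : W} {n : ℕ}
    (h : ∀ i < n, (q x (answers O q x i) ∈ O ↔ q x (answers O q x i) ∈ O')) :
    answers O' q x n = answers O q x n := by
  induction n with
  | zero => rfl
  | succ n ih =>
    have h1 := ih fun i hi => h i (Nat.lt_succ_of_lt hi)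
    have h2 := h n (Nat.lt_succ_self n)
    have h3 : decide (q x (answers O' q x n) ∈ O') = decide (q x (answers O q x n) ∈ O) := by
      rw [decide_eq_decide, h1]
      exact h2.symm
    show answers O' q x n ++ [decide (q x (answers O' q x n) ∈ O')] =
      answers O q x n ++ [decide (q x (answers O q x n) ∈ O)]
    rw [h3, h1]

end MHon
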