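import Pool.Agent.Lib.MP_1a14d4_lc.Table
import Pool.Agent.Lib.MP_1a14d4_lc.Univ
import Pool.Agent.Lib.MP_1a14d4_lc.Words
import Pool.Agent.Lib.MP_1a14d4_lc.Codes
import Pool.Agent.Lib.MP_1a14d4_lc.Ans

namespace MHon

open Pool.Agent.Lib.PolyTime

private def algsCode : T → ℕ
  | .nil => 0
  | .node l r => Nat.pair (algsCode l) (algsCode r) + 1

private theorem algsCode_injective : Function.Injective algsCode := by
  intro a
  induction a with
  | nil =>
    intro b h
    cases b with
    | nil => rfl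
    | node l r => simp [algsCode] at h
  | node l r ihl ihr =>
    intro b h
    cases b with
    | nil => simp [algsCode] at h
    | node l' r' =>
      simp only [algsCode, Nat.add_right_cancel_iff, Nat.pair_eq_pair] at h
      rw [ihl h.1, ihr h.2]

private theorem algs_countable_T : Countable T := algsCode_injective.countable

private theorem algs_countable_poly : Countable (Polynomial ℕ) := by
  rw [← Cardinal.mk_le_aleph0_iff]
  exact (Polynomial.cardinalMk_le_max).trans (by simp)

/-- the bound for the length of the output of a table algorithm -/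
private theorem algs_bound (e : T) (P p : Polynomial ℕ) :
    ∃ κ : ℕ, ∀ x a : W, a.length ≤ p.eval x.length →
      (univ e (pairWord (x, a)) (P.eval (pairWord (x, a)).length)).length ≤
        (x.length + 2) ^ κ := by
  obtain ⟨κ, hκ⟩ := poly_le ((Polynomial.X + p + 1) + P.comp (Polynomial.X + p + 1) + 1)
  refine ⟨κ, fun x a ha => ?_⟩
  have h1 := univ_length e (pairWord (x, a)) (P.eval (pairWord (x, a)).length)
  have h2 := pairWord_length x a
  have h3 : (pairWord (x, a)).length ≤ (Polynomial.X + p + 1 : Polynomial ℕ).eval x.length := by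
    simp only [Polynomial.eval_add, Polynomial.eval_X, Polynomial.eval_one]
    omega
  have h4 := peval_mono P h3
  have h5 := hκ x.length
  rw [Polynomial.eval_add, Polynomial.eval_add, Polynomial.eval_comp, Polynomial.eval_one] at h5
  omega

private theorem algs_exists (e₁ : T) (P₁ : Polynomial ℕ) (e₂ : T) (P₂ : Polynomial ℕ)
    (p : Polynomial ℕ) :
    ∃ A : Alg, (A.q = fun x a => univ e₁ (pairWord (x, a)) (P₁.eval (pairWord (x, a)).length)) ∧
      (A.out = fun x a => univ e₂ (pairWord (x, a)) (P₂.eval (pairWord (x, a)).length)) ∧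
      A.p = fun n => p.eval n := by
  obtain ⟨κ₁, h₁⟩ := algs_bound e₁ P₁ p
  obtain ⟨κ₂, h₂⟩ := algs_bound e₂ P₂ p
  obtain ⟨κ₃, h₃⟩ := poly_le p
  have hm : ∀ n i j : ℕ, i ≤ j → (n + 2) ^ i ≤ (n + 2) ^ j := fun n i j h =>
    Nat.pow_le_pow_right (by omega) h
  exact ⟨{ q := _, out := _, p := _, κ := κ₁ + κ₂ + κ₃
           hp := fun n => (h₃ n).trans (hm _ _ _ (by omega))
           hq := fun x a ha => (h₁ x a ha).trans (hm _ _ _ (by omega))
           hout := fun x a ha => (h₂ x a ha).trans (hm _ _ _ (by omega)) }, rfl, rfl, rfl⟩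

theorem exists_algs :
    ∃ alg : ℕ → Alg, ∀ (O : Set W) (f : W → W), FPO O f → ∃ i, ∀ x, f x = (alg i).run O x := by
  have := algs_countable_T
  have := algs_countable_poly
  have : Nonempty ((T × Polynomial ℕ) × (T × Polynomial ℕ) × Polynomial ℕ) :=
    ⟨((T.nil, 0), (T.nil, 0), 0)⟩
  obtain ⟨c, hc⟩ := exists_surjective_nat ((T × Polynomial ℕ) × (T × Polynomial ℕ) × Polynomial ℕ)
  choose alg h₁ h₂ h₃ using fun d : (T × Polynomial ℕ) × (T × Polynomial ℕ) × Polynomial ℕ =>
    algs_exists d.1.1 d.1.2 d.2.1.1 d.2.1.2 d.2.2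
  refine ⟨fun i => alg (c i), fun O f hf => ?_⟩
  obtain ⟨q, out, p, hq, hout, hf⟩ := hf
  obtain ⟨e₁, P₁, hP₁⟩ := exists_table hq
  obtain ⟨e₂, P₂, hP₂⟩ := exists_table hout
  obtain ⟨i, hi⟩ := hc ((e₁, P₁), (e₂, P₂), p)
  refine ⟨i, fun x => ?_⟩
  have hq' : (alg (c i)).q = q := by
    rw [h₁, hi]
    funext x a
    exact hP₁ (x, a) _ le_rfl
  have hout' : (alg (c i)).out = out := by
    rw [h₂, hi]
    funext x a
    exact hP₂ (x, a) _ le_rfl
  have hp' : (alg (c i)).p = fun n => p.eval n := by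
    rw [h₃, hi]
  rw [Alg.run, hq', hout', hp', hf x]

end MHon
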