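import Pool.Agent.Lib.MP_1a14d4_lc.DefsC

namespace MHon

theorem cf_congr {O O' : Set W} {k : ℕ} {z : W}
    (h : ∀ i ≤ z.length, (tag k i z ∈ O ↔ tag k i z ∈ O')) : cf O k z = cf O' k z := by
  have h1 : block O k z = block O' k z := by
    unfold block
    refine List.map_congr_left fun i hi => ?_
    have h2 := h i (by have := List.mem_range.1 hi; omega)
    exact decide_eq_decide.2 h2
  unfold cf
  rw [h1]

private theorem block_head (O : Set W) (k : ℕ) (z : W) :
    (block O k z).head? = some (bitO O k z 0) := by
  unfold block
  rw [List.range_succ_eq_map]
  simp

theorem cf_live {O : Set W} {k : ℕ} {z : W} (h : tag k 0 z ∉ O) : cf O k z = true :: z := by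
  unfold cf outF
  rw [block_head]
  simp [bitO, h]

theorem cf_dead {O : Set W} {k : ℕ} {z : W} (h : tag k 0 z ∈ O) : ∃ c, cf O k z = false :: c := by
  unfold cf outF
  rw [block_head]
  simp [bitO, h]

private theorem strip_code (d : W) (n : ℕ) :
    strip (d ++ [true] ++ List.replicate n false) = d ++ [true] := by
  unfold strip
  rw [List.reverse_append, List.reverse_replicate, List.dropWhile_append]
  have h1 : (List.replicate n false).dropWhile (fun b => !b) = [] := by
    rw [List.dropWhile_eq_nil_iff]
    intro x hx
    rw [List.eq_of_mem_replicate hx]
    rfl
  rw [h1]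
  simp

theorem cf_code {O : Set W} {k : ℕ} {z d : W} (hd : d.length + 1 ≤ z.length)
    (h : ∀ i ≤ z.length, (tag k i z ∈ O ↔ (true :: (d ++ [true]))[i]? = some true)) :
    cf O k z = false :: (d ++ [true]) := by
  have h1 : block O k z = true :: (d ++ [true] ++ List.replicate (z.length - (d.length + 1)) false) := by
    unfold block
    have key : true :: (d ++ [true] ++ List.replicate (z.length - (d.length + 1)) false) =
        (true :: (d ++ [true])) ++ List.replicate (z.length - (d.length + 1)) false := by simp
    have hlen : (true :: (d ++ [true])).length = d.length + 2 := by simp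
    rw [key]
    apply List.ext_getElem?
    intro i
    rcases Nat.lt_or_ge i (z.length + 1) with hi | hi
    · rw [List.getElem?_map, List.getElem?_range hi, Option.map_some]
      have h4 : bitO O k z i = decide ((true :: (d ++ [true]))[i]? = some true) :=
        decide_eq_decide.2 (h i (by omega))
      rw [h4]
      rcases Nat.lt_or_ge i (d.length + 2) with hi2 | hi2
      · rw [List.getElem?_append_left (by omega)]
        rw [List.getElem?_eq_getElem (by omega)]
        cases (true :: (d ++ [true]))[i] <;> simp
      · rw [List.getElem?_append_right (by omega)]
        have h3 : (true :: (d ++ [true]))[i]? = none := by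
          rw [List.getElem?_eq_none]
          omega
        rw [h3, List.getElem?_replicate, if_pos (by omega)]
        simp
    · rw [List.getElem?_eq_none (by simpa using hi), List.getElem?_eq_none]
      rw [List.length_append, hlen, List.length_replicate]
      omega
  unfold cf outF
  rw [h1]
  simp only [List.head?_cons, if_true, List.tail_cons]
  rw [strip_code]

end MHon
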