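import Pool.Agent.Lib.MP_1a14d4_lc.Stage

namespace MHon

/-- the requirement of the construction -/
def Req (A : Alg) (X : ℕ → W) (j k N : ℕ) (O : Set W) : Prop :=
  ∃ n ≥ N, cf O j (X n) = true :: X n ∧
    (2 ^ (A.run O (true :: X n)).length ≤ ((X n).length + 2) ^ (2 * A.κ + 6) ∨
      ((∀ z, cf O k z ≠ A.run O (true :: X n)) ∧
        ∀ c' t : W, A.run O (true :: X n) = false :: c' → t.length = 2 ^ c'.length → tw c' t ∉ O))

theorem good_zero (K : Set W → Set W) : Good K 0 ∅ := by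
  refine ⟨fun w hw => by simp at hw, fun O _ k z z' hz => ?_, fun O _ k z hz => ?_⟩
  · exact absurd hz (Nat.not_lt_zero _)
  · exact absurd hz (Nat.not_lt_zero _)

theorem Good.refl {K : Set W → Set W} {l : ℕ} {S : Set W} (h : Good K l S) : Ext l S S := by
  refine ⟨fun w hw => hw, fun w hw hw' => absurd hw hw', fun k z hz => Or.inl (cf_live fun h1 => ?_)⟩
  have := h.short _ h1
  rw [tag_length] at this
  omega

/-- the limit of a sequence of states -/
theorem ext_limit {K : Set W → Set W} (l : ℕ → ℕ) (S : ℕ → Set W) (hG : ∀ s, Good K (l s) (S s))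
    (hl : ∀ s, l s < l (s + 1)) (hE : ∀ s, Ext (l s) (S s) (S (s + 1))) (s : ℕ) :
    Ext (l s) (S s) (⋃ s, S s) := by
  have hmono : StrictMono l := strictMono_nat_of_lt_succ hl
  have hst : ∀ s d, Ext (l s) (S s) (S (s + d)) := by
    intro s d
    induction d with
    | zero => exact (hG s).refl
    | succ d ih => exact ih.trans (hmono.monotone (Nat.le_add_right s d)) (hE (s + d))
  have hst' : ∀ s t, s ≤ t → Ext (l s) (S s) (S t) := by
    intro s t h
    obtain ⟨d, rfl⟩ := Nat.exists_eq_add_of_le h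
    exact hst s d
  have hmem : ∀ w ∈ ⋃ s, S s, ∀ s, ∃ t, s ≤ t ∧ w ∈ S t := by
    intro w hw s
    obtain ⟨t, ht⟩ := Set.mem_iUnion.1 hw
    rcases le_total s t with h | h
    · exact ⟨t, h, ht⟩
    · exact ⟨s, le_rfl, (hst' t s h).sub ht⟩
  refine ⟨Set.subset_iUnion S s, fun w hw hwS => ?_, fun k z hz => ?_⟩
  · obtain ⟨t, h1, h2⟩ := hmem w hw s
    exact (hst' s t h1).new w h2 hwS
  · set t := max s (z.length + 1) with ht
    have h1 : z.length < l t := by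
      have h2 : t ≤ l t := hmono.id_le t
      have h3 : z.length + 1 ≤ t := le_max_right _ _
      omega
    have h2 : cf (⋃ s, S s) k z = cf (S t) k z := by
      refine cf_congr fun i _ => ⟨fun h3 => ?_, fun h3 => Set.mem_iUnion.2 ⟨t, h3⟩⟩
      obtain ⟨t', h4, h5⟩ := hmem _ h3 t
      exact ((hst' t t' h4).tag_iff h1).1 h5
    rw [h2]
    exact (hst' s t (le_max_left _ _)).code k z hz

theorem core (K : Set W → Set W) (hK : Cert K) (X : ℕ → ℕ → W) (hX : ∀ c n, n ≤ (X c n).length)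
    (alg : ℕ → Alg) :
    ∃ O : Set W,
      (∀ k, Function.Injective (cf O k)) ∧
      (∀ k z, cf O k z = true :: z ∨
        ∃ c : W, cf O k z = false :: c ∧ (z ∈ K O ↔ ∃ t : W, t.length = 2 ^ c.length ∧ tw c t ∈ O)) ∧
      ∀ i c j k, j ≠ k → ∀ N, ∃ n ≥ N, cf O j (X c n) = true :: X c n ∧
        (2 ^ ((alg i).run O (true :: X c n)).length ≤ ((X c n).length + 2) ^ (2 * (alg i).κ + 6) ∨
          ((∀ z, cf O k z ≠ (alg i).run O (true :: X c n)) ∧
            ∀ c' t : W, (alg i).run O (true :: X c n) = false :: c' → t.length = 2 ^ c'.length →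
              tw c' t ∉ O)) := by
  classical
  have step : ∀ (σ : {p : ℕ × Set W // Good K p.1 p.2}) (r : ℕ × ℕ × ℕ × ℕ × ℕ),
      ∃ σ' : {p : ℕ × Set W // Good K p.1 p.2}, σ.1.1 < σ'.1.1 ∧ Ext σ.1.1 σ.1.2 σ'.1.2 ∧
        (r.2.2.1 ≠ r.2.2.2.1 → ∀ O, Ext σ'.1.1 σ'.1.2 O →
          Req (alg r.1) (X r.2.1) r.2.2.1 r.2.2.2.1 r.2.2.2.2 O) := by
    rintro ⟨⟨l, S⟩, hG⟩ ⟨i, c, j, k, N⟩
    by_cases hjk : j = k
    · obtain ⟨l', S', h1, h2, h3, -⟩ := stage hK hG (alg i) (X c) (hX c) (j := 0) (k := 1)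
        (by norm_num) N
      exact ⟨⟨⟨l', S'⟩, h3⟩, h1, h2, fun h => absurd hjk h⟩
    · obtain ⟨l', S', h1, h2, h3, n, hn, h4⟩ := stage hK hG (alg i) (X c) (hX c) hjk N
      exact ⟨⟨⟨l', S'⟩, h3⟩, h1, h2, fun _ O hO => ⟨n, hn, h4 O hO⟩⟩
  choose next hlt hext hreq using step
  let seq : ℕ → {p : ℕ × Set W // Good K p.1 p.2} := fun s =>
    Nat.rec ⟨⟨0, ∅⟩, good_zero K⟩ (fun s σ => next σ (Denumerable.ofNat (ℕ × ℕ × ℕ × ℕ × ℕ) s)) s
  have hseq : ∀ s, seq (s + 1) = next (seq s) (Denumerable.ofNat (ℕ × ℕ × ℕ × ℕ × ℕ) s) :=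
    fun s => rfl
  have hl : ∀ s, (seq s).1.1 < (seq (s + 1)).1.1 := fun s => by rw [hseq]; exact hlt _ _
  have hE : ∀ s, Ext (seq s).1.1 (seq s).1.2 (seq (s + 1)).1.2 := fun s => by
    rw [hseq]; exact hext _ _
  have hlim := ext_limit (fun s => (seq s).1.1) (fun s => (seq s).1.2) (fun s => (seq s).2) hl hE
  have hmono : StrictMono fun s => (seq s).1.1 := strictMono_nat_of_lt_succ hl
  have hbig : ∀ n, ∃ s, n < (seq s).1.1 := fun n => ⟨n + 1, by
    have h1 : n + 1 ≤ (seq (n + 1)).1.1 := hmono.id_le (n + 1)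
    omega⟩
  refine ⟨⋃ s, (seq s).1.2, fun k z z' h => ?_, fun k z => ?_, fun i c j k hjk N => ?_⟩
  · obtain ⟨s, hs⟩ := hbig (max z.length z'.length)
    exact (seq s).2.inj _ (hlim s) k z z' ((le_max_left _ _).trans_lt hs)
      ((le_max_right _ _).trans_lt hs) h
  · obtain ⟨s, hs⟩ := hbig z.length
    rcases (seq s).2.corr _ (hlim s) k z hs with h | ⟨c, -, h⟩
    · exact Or.inl h
    · exact Or.inr ⟨c, h⟩
  · set s := Encodable.encode ((i, c, j, k, N) : ℕ × ℕ × ℕ × ℕ × ℕ) with hs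
    have h1 := hreq (seq s) (Denumerable.ofNat (ℕ × ℕ × ℕ × ℕ × ℕ) s)
    rw [← hseq] at h1
    have h2 : Denumerable.ofNat (ℕ × ℕ × ℕ × ℕ × ℕ) s = (i, c, j, k, N) := by
      rw [hs, Denumerable.ofNat_encode]
    rw [h2] at h1
    exact h1 hjk _ (hlim (s + 1))

end MHon
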