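import Pool.Agent.Lib.MP_1a14d4_lc.Tag
import Pool.Agent.Lib.MP_1a14d4_lc.Ans

namespace MHon

private theorem dead_congr (S : Set W) (k m : ℕ) (cw : ℕ → W) (q : W → W → W) (u : W)
    (D : List W) (z : W) (hz : z ∉ D) (hm : m ≤ z.length) (n : ℕ)
    (h : ∀ i < n, ∀ i' z', q u (answers (OD S k cw D) q u i) = tag k i' z' → m ≤ z'.length →
      z' ∈ D) (i : ℕ) (hi : i ≤ n) :
    answers (OD S k cw (D ++ [z])) q u i = answers (OD S k cw D) q u i := by
  apply answers_congr
  intro i2 hi2
  constructor
  · rintro (hS | ⟨j, i', z', hj, hw, hb⟩)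
    · exact Or.inl hS
    · refine Or.inr ⟨j, i', z', ?_, hw, hb⟩
      have hlt : j < D.length := (List.getElem?_eq_some_iff.mp hj).1
      rw [List.getElem?_append_left hlt]
      exact hj
  · rintro (hS | ⟨j, i', z', hj, hw, hb⟩)
    · exact Or.inl hS
    · rcases lt_or_ge j D.length with hlt | hge
      · rw [List.getElem?_append_left hlt] at hj
        exact Or.inr ⟨j, i', z', hj, hw, hb⟩
      · rw [List.getElem?_append_right hge] at hj
        obtain ⟨h1, h2⟩ := List.getElem?_eq_some_iff.mp hj
        have h3 : z' = z := by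
          rw [← h2]
          exact List.getElem_singleton _
        rw [h3] at hw
        exact absurd (h i2 (lt_of_lt_of_le hi2 hi) i' z hw hm) hz

private theorem dead_tag_le (k i : ℕ) (z : W) : z.length ≤ (tag k i z).length := by
  rw [tag_length]
  omega

private theorem dead_ind (S : Set W) (k m b p : ℕ) (cw : ℕ → W) (q : W → W → W) (u : W)
    (hq : ∀ a : W, a.length ≤ p → (q u a).length ≤ b) (n : ℕ) (hn : n ≤ p) :
    ∃ D : List W, D.Nodup ∧ D.length ≤ n ∧ (∀ z ∈ D, m ≤ z.length ∧ z.length ≤ b) ∧
      (∀ i < n, ∀ i' z, q u (answers (OD S k cw D) q u i) = tag k i' z → m ≤ z.length →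
        z ∈ D) := by
  induction n with
  | zero => exact ⟨[], List.nodup_nil, le_refl _, by simp, fun i hi => absurd hi (by omega)⟩
  | succ n ih =>
    obtain ⟨D, h1, h2, h3, h4⟩ := ih (by omega)
    by_cases hc : ∃ i' z, q u (answers (OD S k cw D) q u n) = tag k i' z ∧ m ≤ z.length ∧ z ∉ D
    · obtain ⟨i₀, z₀, hw, hm, hz⟩ := hc
      have hcon := dead_congr S k m cw q u D z₀ hz hm n h4
      refine ⟨D ++ [z₀], ?_, ?_, ?_, ?_⟩
      · rw [List.nodup_append]
        refine ⟨h1, List.nodup_singleton _, ?_⟩
        intro a ha b' hb' hab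
        rw [List.mem_singleton] at hb'
        rw [hab, hb'] at ha
        exact hz ha
      · rw [List.length_append, List.length_singleton]
        omega
      · intro z hz'
        rw [List.mem_append, List.mem_singleton] at hz'
        rcases hz' with hz' | rfl
        · exact h3 z hz'
        · refine ⟨hm, (dead_tag_le k i₀ z).trans ?_⟩
          rw [← hw]
          apply hq
          rw [answers_length]
          omega
      · intro i hi i' z hiz hmz
        rw [hcon i (by omega)] at hiz
        rw [List.mem_append, List.mem_singleton]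
        rcases Nat.lt_succ_iff_lt_or_eq.mp hi with hlt | rfl
        · exact Or.inl (h4 i hlt i' z hiz hmz)
        · rw [hw] at hiz
          exact Or.inr (tag_inj hiz).2.2.symm
    · push Not at hc
      refine ⟨D, h1, by omega, h3, ?_⟩
      intro i hi i' z hiz hmz
      rcases Nat.lt_succ_iff_lt_or_eq.mp hi with hlt | rfl
      · exact h4 i hlt i' z hiz hmz
      · exact hc i' z hiz hmz

theorem exists_dead (S : Set W) (k m b p : ℕ) (cw : ℕ → W) (q out : W → W → W) (u : W)
    (hq : ∀ a : W, a.length ≤ p → (q u a).length ≤ b)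
    (hout : ∀ a : W, a.length ≤ p → (out u a).length ≤ b) :
    ∃ D : List W, D.Nodup ∧ D.length ≤ p + 1 ∧ (∀ z ∈ D, m ≤ z.length ∧ z.length ≤ b) ∧
      (∀ i < p, ∀ i' z, q u (answers (OD S k cw D) q u i) = tag k i' z → m ≤ z.length → z ∈ D) ∧
      ∀ z, out u (answers (OD S k cw D) q u p) = true :: z → m ≤ z.length → z ∈ D := by
  obtain ⟨D, h1, h2, h3, h4⟩ := dead_ind S k m b p cw q u hq p le_rfl
  by_cases hc : ∃ z, out u (answers (OD S k cw D) q u p) = true :: z ∧ m ≤ z.length ∧ z ∉ D
  · obtain ⟨z₀, hw, hm, hz⟩ := hc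
    have hcon := dead_congr S k m cw q u D z₀ hz hm p h4
    refine ⟨D ++ [z₀], ?_, ?_, ?_, ?_, ?_⟩
    · rw [List.nodup_append]
      refine ⟨h1, List.nodup_singleton _, ?_⟩
      intro a ha b' hb' hab
      rw [List.mem_singleton] at hb'
      rw [hab, hb'] at ha
      exact hz ha
    · rw [List.length_append, List.length_singleton]
      omega
    · intro z hz'
      rw [List.mem_append, List.mem_singleton] at hz'
      rcases hz' with hz' | rfl
      · exact h3 z hz'
      · refine ⟨hm, ?_⟩
        have h5 := hout (answers (OD S k cw D) q u p) (by rw [answers_length])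
        rw [hw, List.length_cons] at h5
        omega
    · intro i hi i' z hiz hmz
      rw [hcon i (by omega)] at hiz
      rw [List.mem_append]
      exact Or.inl (h4 i hi i' z hiz hmz)
    · intro z hzz hmz
      rw [hcon p le_rfl, hw] at hzz
      rw [List.mem_append, List.mem_singleton]
      right
      exact (List.cons.inj hzz).2.symm
  · push Not at hc
    exact ⟨D, h1, by omega, h3, h4, fun z hz hm => hc z hz hm⟩

end MHon
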