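import Mathlib

/-!
# Oracle reductions and the classes RE and NEXP relative to an oracle

Words are lists of bits, an oracle is a set of words.

* `FP2 f`: the function `f` of two words is computable in polynomial time (Mathlib's Turing machines).
* `FPO O f`: `f` is computable in polynomial time with the oracle `O`: on input `x` the algorithm asks
  `p(|x|)` queries one after the other, the next query is computed in polynomial time from the input
  and the answers obtained so far, and the output from the input and all answers.
* `REO O B`: `B` is recursively enumerable relative to `O`.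
* `NEXPO O B`: `B` is accepted by a nondeterministic machine with oracle `O` in time `2 ^ p(|x|)` for a
  polynomial `p`, in the form guess and check.
-/

namespace MHon

open Turing

/-- words over the alphabet of the two bits -/
abbrev W := List Bool

/-- the word `x # a` -/
def pairWord (p : W × W) : List (Option Bool) := p.1.map some ++ none :: p.2.map some

/-- `f x a` can be computed from `x # a` in polynomial time by a Turing machine -/
def FP2 (f : W → W → W) : Prop :=
  Nonempty (TM2ComputableInPolyTime pairWord (fun y : W => y) (fun p : W × W => f p.1 p.2))

open Classical in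
/-- The answers (membership in the oracle `O`) to the first `k` queries on input `x`: the next query
is `q x a` if `a` is the list of the answers to the queries asked so far. -/
noncomputable def answers (O : Set W) (q : W → W → W) (x : W) : ℕ → W
  | 0 => []
  | k + 1 => answers O q x k ++ [decide (q x (answers O q x k) ∈ O)]

/-- `f` is computable in polynomial time with the oracle `O` -/
def FPO (O : Set W) (f : W → W) : Prop :=
  ∃ (q out : W → W → W) (p : Polynomial ℕ), FP2 q ∧ FP2 out ∧
    ∀ x, f x = out x (answers O q x (p.eval x.length))

/-- All facts of the list `L` hold for the oracle `O`: `(u, true)` is the fact `u ∈ O`, and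
`(u, false)` is the fact `u ∉ O`. -/
def Agrees (L : List (W × Bool)) (O : Set W) : Prop := ∀ p ∈ L, (p.1 ∈ O ↔ p.2 = true)

/-- `B` is recursively enumerable relative to `O`: for a recursively enumerable relation `R`, a word
`x` belongs to `B` if and only if `R (x, L)` for a finite list `L` of facts which hold for `O`. -/
def REO (O : Set W) (B : Set W) : Prop :=
  ∃ R : W × List (W × Bool) → Prop, REPred R ∧ ∀ x, x ∈ B ↔ ∃ L, R (x, L) ∧ Agrees L O

/-- the word `x # w # L`, in which each fact `(u, b)` of `L` is written as `b u #` -/
def runWord (r : W × W × List (W × Bool)) : List (Option Bool) :=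
  r.1.map some ++ none :: (r.2.1.map some ++ none ::
    r.2.2.flatMap (fun p => some p.2 :: (p.1.map some ++ [none])))

/-- `B` belongs to NEXP relative to `O`: for a polynomial `p` and a polynomial-time predicate `V`, a
word `x` belongs to `B` if and only if there are a word `w` (the guess) and a list `L` of facts which
hold for `O` (the queries and their answers) such that `V (x, w, L)`, where `x`, `w` and `L` together
have length at most `2 ^ p(|x|)`. -/
def NEXPO (O : Set W) (B : Set W) : Prop :=
  ∃ (p : Polynomial ℕ) (V : W × W × List (W × Bool) → Bool),
    Nonempty (TM2ComputableInPolyTime runWord Computability.encodeBool V) ∧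
    ∀ x, x ∈ B ↔ ∃ w L, (runWord (x, w, L)).length ≤ 2 ^ p.eval x.length ∧ V (x, w, L) = true ∧
      Agrees L O

/-- `B ≤ₘ A` relative to `O` -/
def RedM (O B A : Set W) : Prop := ∃ f, FPO O f ∧ ∀ x, x ∈ B ↔ f x ∈ A

/-- `A` belongs to the complete m-degree of the class `C`, relative to `O` -/
def CompleteM (O : Set W) (C : Set W → Prop) (A : Set W) : Prop := C A ∧ ∀ B, C B → RedM O B A

/-- `B` is many-one reducible to `A` relative to `O` by a function `f` with `|x| ≤ r(|f x|)`. For a
polynomial `r` this is an honest reduction. -/
def RedHonest (O : Set W) (r : ℕ → ℕ) (B A : Set W) : Prop :=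
  ∃ f, FPO O f ∧ (∀ x : W, x.length ≤ r (f x).length) ∧ ∀ x, x ∈ B ↔ f x ∈ A

/-- `r(m) ^ k < 2 ^ m` for every `k` and all large `m` (for example every polynomial) -/
def Subexp (r : ℕ → ℕ) : Prop := ∀ k : ℕ, ∀ᶠ m in Filter.atTop, r m ^ k < 2 ^ m

end MHon
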