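import Pool.Agent.Lib.MP_1a14d4_lc.Defs

/-!
# The words of the oracle, the coding functions, oracle algorithms, states of the construction
-/

namespace MHon

/-- the word of the oracle which gives the bit number `i` of the block of `z` in the copy `k` -/
def tag (k i : ℕ) (z : W) : W :=
  false :: (List.replicate k true ++ false :: (List.replicate i true ++ false :: z))

/-- the witness words of the code `c` -/
def tw (c t : W) : W := true :: (List.replicate c.length true ++ false :: (c ++ t))

open Classical in
/-- the bit number `i` of the block of `z` in the copy `k` -/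
noncomputable def bitO (O : Set W) (k : ℕ) (z : W) (i : ℕ) : Bool := decide (tag k i z ∈ O)

/-- the block of `z` in the copy `k` (its first `|z| + 1` bits) -/
noncomputable def block (O : Set W) (k : ℕ) (z : W) : W :=
  (List.range (z.length + 1)).map (bitO O k z)

/-- remove the trailing zeros -/
def strip (l : W) : W := (l.reverse.dropWhile (fun b => !b)).reverse

/-- The value of the coding function at `z` if the block of `z` is `a`: the code of `z` (after the
first bit of the block, without the trailing zeros) if the first bit is `1` (`z` is dead), and `z`
itself if the first bit is `0` (`z` is alive). -/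
def outF (z a : W) : W := if a.head? = some true then false :: strip a.tail else true :: z

/-- the coding function of the copy `k` -/
noncomputable def cf (O : Set W) (k : ℕ) (z : W) : W := outF z (block O k z)

/-- oracle algorithms with polynomial bounds -/
structure Alg where
  /-- the next query -/
  q : W → W → W
  /-- the output -/
  out : W → W → W
  /-- the number of queries -/
  p : ℕ → ℕ
  /-- the exponent of the bounds -/
  κ : ℕ
  hp : ∀ n, p n ≤ (n + 2) ^ κ
  hq : ∀ x a : W, a.length ≤ p x.length → (q x a).length ≤ (x.length + 2) ^ κ
  hout : ∀ x a : W, a.length ≤ p x.length → (out x a).length ≤ (x.length + 2) ^ κ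

/-- the output of an oracle algorithm -/
noncomputable def Alg.run (A : Alg) (O : Set W) (x : W) : W :=
  A.out x (answers O A.q x (A.p x.length))

/-- `K` is an operator such that membership has certificates with at most `2 ^ |z|` facts about
words of length at most `2 ^ |z|` -/
def Cert (K : Set W → Set W) : Prop :=
  ∀ O z, z ∈ K O → ∃ L : List (W × Bool), L.length ≤ 2 ^ z.length ∧
    (∀ p ∈ L, p.1.length ≤ 2 ^ z.length) ∧ Agrees L O ∧ ∀ O', Agrees L O' → z ∈ K O'

/-- The oracle `S` with the additional words which make the elements of the list `D` dead in the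
copy `k`; the element number `j` of `D` gets the code `cw j`. -/
def OD (S : Set W) (k : ℕ) (cw : ℕ → W) (D : List W) : Set W :=
  S ∪ {w | ∃ j i z, D[j]? = some z ∧ w = tag k i z ∧ (true :: cw j)[i]? = some true}

/-- the oracle `O` extends the state `(l, S)` of the construction -/
structure Ext (l : ℕ) (S O : Set W) : Prop where
  sub : S ⊆ O
  new : ∀ w ∈ O, w ∉ S → (∃ k i z, w = tag k i z ∧ l ≤ z.length) ∨ ∃ c t, w = tw c t ∧ l ≤ c.length
  code : ∀ k z, l ≤ z.length → cf O k z = true :: z ∨ ∃ c, cf O k z = false :: c ∧ l ≤ c.length

/-- good states -/
structure Good (K : Set W → Set W) (l : ℕ) (S : Set W) : Prop where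
  short : ∀ w ∈ S, w.length < l
  inj : ∀ O, Ext l S O → ∀ k z z', z.length < l → z'.length < l → cf O k z = cf O k z' → z = z'
  corr : ∀ O, Ext l S O → ∀ k z, z.length < l → cf O k z = true :: z ∨
    ∃ c : W, c.length < l ∧ cf O k z = false :: c ∧
      (z ∈ K O ↔ ∃ t : W, t.length = 2 ^ c.length ∧ tw c t ∈ O)

end MHon
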