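import Pool.Agent.Lib.MP_1a14d4_lc.Tag
import Pool.Agent.Lib.MP_1a14d4_lc.Cf

namespace MHon

namespace Ext

variable {l l' : ℕ} {S S' O : Set W}

theorem tag_iff (h : Ext l S O) {k i : ℕ} {z : W} (hz : z.length < l) :
    tag k i z ∈ O ↔ tag k i z ∈ S := by
  refine ⟨fun h1 => ?_, fun h1 => h.sub h1⟩
  by_contra h2
  rcases h.new _ h1 h2 with ⟨k', i', z', e, h3⟩ | ⟨c, t, e, -⟩
  · obtain ⟨-, -, e'⟩ := tag_inj e
    rw [e'] at hz
    omega
  · exact tag_ne_tw _ _ _ _ _ e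

theorem tw_iff (h : Ext l S O) {c t : W} (hc : c.length < l) : tw c t ∈ O ↔ tw c t ∈ S := by
  refine ⟨fun h1 => ?_, fun h1 => h.sub h1⟩
  by_contra h2
  rcases h.new _ h1 h2 with ⟨k', i', z', e, -⟩ | ⟨c', t', e, h3⟩
  · exact tag_ne_tw _ _ _ _ _ e.symm
  · obtain ⟨e', -⟩ := tw_inj e
    rw [e'] at hc
    omega

theorem short_iff (h : Ext l S O) {w : W} (hw : w.length < l) : w ∈ O ↔ w ∈ S := by
  refine ⟨fun h1 => ?_, fun h1 => h.sub h1⟩
  by_contra h2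
  rcases h.new _ h1 h2 with ⟨k', i', z', e, h3⟩ | ⟨c', t', e, h3⟩
  · rw [e, tag_length] at hw
    omega
  · rw [e, tw_length] at hw
    omega

theorem cf_eq (h : Ext l S O) {k : ℕ} {z : W} (hz : z.length < l) : cf O k z = cf S k z :=
  cf_congr fun i _ => h.tag_iff hz

theorem trans (h : Ext l S S') (hl : l ≤ l') (h' : Ext l' S' O) : Ext l S O := by
  refine ⟨h.sub.trans h'.sub, fun w hw hwS => ?_, fun k z hz => ?_⟩
  · by_cases hw' : w ∈ S'
    · exact h.new w hw' hwS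
    · rcases h'.new w hw hw' with ⟨k, i, z, e, h1⟩ | ⟨c, t, e, h1⟩
      · exact Or.inl ⟨k, i, z, e, hl.trans h1⟩
      · exact Or.inr ⟨c, t, e, hl.trans h1⟩
  · rcases lt_or_ge z.length l' with h1 | h1
    · rw [h'.cf_eq h1]
      exact h.code k z hz
    · rcases h'.code k z h1 with h2 | ⟨c, h2, h3⟩
      · exact Or.inl h2
      · exact Or.inr ⟨c, h2, hl.trans h3⟩

end Ext

end MHon
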