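import Pool.Agent.Lib.MP_1a14d4_lc.Bridge
import Pool.Agent.Lib.MP_1a14d4_lc.Ans

namespace MHon

open Pool.Agent.Lib.PolyTime

theorem polyF_tag (k : ℕ) : PolyF (fun p : ℕ × W => tag k p.1 p.2) := by
  unfold tag
  refine (PolyF.const false).cons ((PolyF.const (List.replicate k true)).append
    ((PolyF.const false).cons (PolyF.append ?_ ((PolyF.const false).cons PolyF.snd'))))
  refine ((PolyF.range PolyF.fst').map (h := fun _ _ => true) (PolyF.const true)).congr fun p => ?_
  apply List.ext_getElem?
  intro i
  rw [List.getElem?_map, List.getElem?_replicate]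
  split_ifs with h
  · rw [List.getElem?_range h]
    rfl
  · rw [List.getElem?_eq_none (by simpa using h)]
    rfl

theorem polyF_strip : PolyF strip := by
  unfold strip
  exact (PolyF.id.reverse.dropWhile (p := fun _ b => !b) PolyF.snd'.not).reverse

theorem polyF_outF : PolyF (fun p : W × W => outF p.1 p.2) := by
  unfold outF
  refine PolyF.ite (PolyF.eqConst (some true) PolyF.snd'.head?) ?_ ?_
  · exact (PolyF.const false).cons (polyF_strip.comp PolyF.snd'.tail)
  · exact (PolyF.const true).cons PolyF.fst'

open Classical in
theorem answers_tag (O : Set W) (k : ℕ) (z x : W) {q : W → W → W}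
    (hq : ∀ a : W, q x a = tag k a.length z) (n : ℕ) :
    answers O q x n = (List.range n).map (bitO O k z) := by
  induction n with
  | zero => rfl
  | succ n ih =>
    have h1 : q x (answers O q x n) = tag k n z := by rw [hq, answers_length]
    have h2 : decide (q x (answers O q x n) ∈ O) = bitO O k z n := by
      unfold bitO
      rw [decide_eq_decide, h1]
    rw [List.range_succ, List.map_append, ← ih, List.map_singleton]
    show answers O q x n ++ [decide (q x (answers O q x n) ∈ O)] = _
    rw [h2]

theorem sz_word_le (x : W) : sz x ≤ 2 * x.length := by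
  have := sz_le_of_forall (l := x) (M := 1) (fun b _ => sz_bool_le b)
  omega

theorem fpo_cf (O : Set W) (k : ℕ) {g : W → W} (hg : PolyF g) : FPO O (fun x => cf O k (g x)) := by
  obtain ⟨Q, hQ⟩ := hg.bound
  have hlen : ∀ x : W, (g x).length + 1 ≤ (Q.comp (2 * Polynomial.X) + 1).eval x.length := by
    intro x
    have h1 := length_le_sz (g x)
    have h2 := hQ x
    have h3 := peval_mono Q (sz_word_le x)
    simp only [Polynomial.eval_add, Polynomial.eval_comp, Polynomial.eval_mul,
      Polynomial.eval_X, Polynomial.eval_one, Polynomial.eval_ofNat]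
    omega
  refine ⟨fun x a => tag k a.length (g x), fun x a => outF (g x) (a.take ((g x).length + 1)),
    Q.comp (2 * Polynomial.X) + 1, ?_, ?_, fun x => ?_⟩
  · exact fp2_of_polyF ((polyF_tag k).comp (PolyF.snd'.length.pair (hg.comp PolyF.fst')))
  · refine fp2_of_polyF (polyF_outF.comp ((hg.comp PolyF.fst').pair
      (PolyF.take ((hg.comp PolyF.fst').length.succ) PolyF.snd')))
  · have h1 := answers_tag O k (g x) x (q := fun x a => tag k a.length (g x)) (fun _ => rfl)
        ((Q.comp (2 * Polynomial.X) + 1).eval x.length)
    show cf O k (g x) = outF (g x) ((answers O (fun x a => tag k a.length (g x)) x _).take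
      ((g x).length + 1))
    rw [h1, ← List.map_take, List.take_range, min_eq_left (hlen x)]
    rfl

end MHon
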