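import Pool.Agent.Lib.MP_1a14d4_lc.Core
import Pool.Agent.Lib.MP_1a14d4_lc.Algs
import Pool.Agent.Lib.MP_1a14d4_lc.FpoCf
import Pool.Agent.Lib.MP_1a14d4_lc.ARMem
import Pool.Agent.Lib.MP_1a14d4_lc.ANMem
import Pool.Agent.Lib.MP_1a14d4_lc.KNComplete

namespace MHon

open Pool.Agent.Lib.PolyTime

theorem Subexp.succ {r : ℕ → ℕ} (h : Subexp r) : Subexp (fun m => r m + 1) := by
  intro k
  filter_upwards [h (2 * k), Filter.eventually_ge_atTop (2 * k + 2)] with m hm hk
  rcases Nat.eq_zero_or_pos (r m) with h0 | h0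
  · simp only [h0, zero_add, one_pow]
    exact Nat.one_lt_two_pow (by omega)
  · have h1 : (r m + 1) ^ k ≤ (2 * r m) ^ k := Nat.pow_le_pow_left (by omega) k
    have h2 : ((2 * r m) ^ k) ^ 2 < (2 ^ m) ^ 2 := by
      calc ((2 * r m) ^ k) ^ 2 = 2 ^ (2 * k) * r m ^ (2 * k) := by
            rw [← pow_mul, mul_comm k 2, mul_pow]
        _ < 2 ^ (2 * k) * 2 ^ m := Nat.mul_lt_mul_of_pos_left hm (by positivity)
        _ = 2 ^ (2 * k + m) := by rw [pow_add]
        _ ≤ 2 ^ (m * 2) := Nat.pow_le_pow_right (by norm_num) (by omega)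
        _ = (2 ^ m) ^ 2 := by rw [pow_mul]
    exact lt_of_le_of_lt h1 (lt_of_pow_lt_pow_left₀ 2 (by positivity) h2)

/-- the numerical contradiction -/
theorem no_subexp {r : ℕ → ℕ} (hr : Subexp r) (κ : ℕ) (u y : ℕ → ℕ) (hu : ∀ N, N ≤ u N)
    (h1 : ∀ N, u N ≤ r (y N)) (h2 : ∀ N, 2 ^ y N ≤ (u N + 1) ^ κ) : False := by
  obtain ⟨M, hM⟩ := Filter.eventually_atTop.1 (hr.succ κ)
  set N := (Finset.range M).sup r + 1 with hN
  rcases lt_or_ge (y N) M with h | h
  · have h3 : r (y N) ≤ (Finset.range M).sup r := Finset.le_sup (f := r) (Finset.mem_range.2 h)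
    have h4 := hu N
    have h5 := h1 N
    omega
  · have h3 := hM _ h
    have h4 : (u N + 1) ^ κ ≤ (r (y N) + 1) ^ κ :=
      Nat.pow_le_pow_left (Nat.succ_le_succ (h1 N)) κ
    exact lt_irrefl _ (h3.trans_le ((h2 N).trans h4))

theorem mem_AN {O : Set W} {k : ℕ} {z : W} (h : cf O k z = true :: z ∨
    ∃ c : W, cf O k z = false :: c ∧ (z ∈ KN O ↔ ∃ t : W, t.length = 2 ^ c.length ∧ tw c t ∈ O)) :
    cf O k z ∈ AN O k ↔ z ∈ KN O := by
  rcases h with h | ⟨c, h, h'⟩
  · have h0 : tag k 0 z ∉ O := by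
      intro h1
      obtain ⟨c, hc⟩ := cf_dead h1
      rw [h] at hc
      simp at hc
    rw [h]
    constructor
    · rintro (⟨z', e, -, h2⟩ | ⟨c, t, e, -⟩)
      · simp only [List.cons.injEq, true_and] at e
        rwa [e]
      · simp at e
    · intro h2
      exact Or.inl ⟨z, rfl, h0, h2⟩
  · rw [h, h']
    constructor
    · rintro (⟨z', e, -⟩ | ⟨c', t, e, h2, h3⟩)
      · simp at e
      · simp only [List.cons.injEq, true_and] at e
        subst e
        exact ⟨t, h2, h3⟩
    · rintro ⟨t, h2, h3⟩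
      exact Or.inr ⟨c, t, rfl, h2, h3⟩

theorem main : ∃ O : Set W,
    (∃ A : ℕ → Set W, (∀ i, CompleteM O (REO O) (A i)) ∧
      ∀ i j, i ≠ j → ∀ r, Subexp r → ¬ RedHonest O r (A i) (A j)) ∧
    (∃ A : ℕ → Set W, (∀ i, CompleteM O (NEXPO O) (A i)) ∧
      ∀ i j, i ≠ j → ∀ r, Subexp r → ¬ RedHonest O r (A i) (A j)) := by
  obtain ⟨gR, hgR, lenR, memR⟩ := KR_complete (R := fun _ => True)
    ((ComputablePred.to_re (Computable.computablePred (p := fun _ => True)
      ((Computable.const true).of_eq fun _ => by simp))))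
  obtain ⟨gN, hgN, lenN, memN⟩ := KN_complete (p := Polynomial.X + 1) (V := fun _ => true)
    (tm2_of_polyF (PolyF.const true))
  obtain ⟨alg, halg⟩ := exists_algs
  set X : ℕ → ℕ → W := fun c n =>
    if c = 0 then gR (List.replicate n true) else gN (List.replicate n true) with hX
  have hXlen : ∀ c n, n ≤ (X c n).length := by
    intro c n
    simp only [hX]
    split_ifs
    · simpa using lenR (List.replicate n true)
    · simpa using lenN (List.replicate n true)
  obtain ⟨O, hinj, hcorr, hdiag⟩ := core KN KN_cert X hXlen alg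
  have hXR : ∀ n, X 0 n ∈ KR O := by
    intro n
    simp only [hX, if_true]
    exact (memR O _).1 ⟨[], trivial, fun p hp => by simp at hp⟩
  have hXN : ∀ n, X 1 n ∈ KN O := by
    intro n
    simp only [hX, one_ne_zero, if_false]
    refine (memN O _).1 ⟨[], [], ?_, rfl, fun p hp => by simp at hp⟩
    rw [runWord_length]
    simp only [List.length_replicate, List.length_nil, List.map_nil, List.sum_nil, add_zero,
      Polynomial.eval_add, Polynomial.eval_X, Polynomial.eval_one]
    have h3 : n + 1 < 2 ^ (n + 1) := Nat.lt_two_pow_self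
    exact h3
  have hN : ∀ k z, cf O k z ∈ AN O k ↔ z ∈ KN O := fun k z => mem_AN (hcorr k z)
  have hR : ∀ k z, cf O k z ∈ AR O k ↔ z ∈ KR O := fun k z => by
    constructor
    · rintro ⟨z', h1, h2⟩
      rwa [← hinj k h2]
    · intro h1
      exact ⟨z, h1, rfl⟩
  refine ⟨O, ⟨AR O, fun i => ⟨AR_mem O i, ?_⟩, ?_⟩, ⟨AN O, fun i => ⟨AN_mem O i, ?_⟩, ?_⟩⟩
  · rintro B ⟨R, hRe, hB⟩
    obtain ⟨g, hg, -, hmem⟩ := KR_complete hRe
    exact ⟨fun x => cf O i (g x), fpo_cf O i hg, fun x => by rw [hB, hmem, hR]⟩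
  · rintro i j hij r hr ⟨f, hf, hlen, hred⟩
    obtain ⟨a, ha⟩ := halg O f hf
    choose n hn hlive hcase using hdiag a 0 i j hij
    refine no_subexp hr (2 * (alg a).κ + 6) (fun N => (true :: X 0 (n N)).length)
      (fun N => (f (true :: X 0 (n N))).length) ?_ (fun N => hlen _) ?_
    · intro N
      have h1 := hn N
      have h2 := hXlen 0 (n N)
      simp only [List.length_cons]
      omega
    · intro N
      have hmem : f (true :: X 0 (n N)) ∈ AR O j := by
        rw [← hred, ← hlive N, hR]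
        exact hXR _
      rcases hcase N with h | ⟨h, -⟩
      · simp only [List.length_cons]
        rw [ha]
        exact h
      · exfalso
        obtain ⟨z, -, hz⟩ := hmem
        exact h z (by rw [hz, ha])
  · rintro B ⟨p, V, hV, hB⟩
    obtain ⟨g, hg, -, hmem⟩ := KN_complete (p := p) hV
    exact ⟨fun x => cf O i (g x), fpo_cf O i hg, fun x => by rw [hB, hmem, hN]⟩
  · rintro i j hij r hr ⟨f, hf, hlen, hred⟩
    obtain ⟨a, ha⟩ := halg O f hf
    choose n hn hlive hcase using hdiag a 1 i j hij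
    refine no_subexp hr (2 * (alg a).κ + 6) (fun N => (true :: X 1 (n N)).length)
      (fun N => (f (true :: X 1 (n N))).length) ?_ (fun N => hlen _) ?_
    · intro N
      have h1 := hn N
      have h2 := hXlen 1 (n N)
      simp only [List.length_cons]
      omega
    · intro N
      have hmem : f (true :: X 1 (n N)) ∈ AN O j := by
        rw [← hred, ← hlive N, hN]
        exact hXN _
      rcases hcase N with h | ⟨h, h'⟩
      · simp only [List.length_cons]
        rw [ha]
        exact h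
      · exfalso
        rcases hmem with ⟨z, e, h2, -⟩ | ⟨c, t, e, h2, h3⟩
        · exact h z (by rw [cf_live h2, ← e, ha])
        · exact h' c t (by rw [← ha, e]) h2 h3

end MHon
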