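import Pool.Agent.Lib.MP_1a14d4_lc.ReEx
import Pool.Agent.Lib.MP_1a14d4_lc.DefsU

namespace MHon

open Pool.Agent.Lib.PolyTime

private theorem RURe_takeWhile : Primrec (fun l : List Bool => l.takeWhile (fun b => b)) := by
  have h : Primrec (fun l : List Bool =>
      l.foldr (fun b (s : List Bool) => bif b then b :: s else []) []) := by
    refine Primrec.list_foldr (f := fun l : List Bool => l) (g := fun _ => ([] : List Bool))
      (h := fun (_ : List Bool) (p : Bool × List Bool) => bif p.1 then p.1 :: p.2 else [])
      Primrec.id (Primrec.const _) ?_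
    exact Primrec.cond (Primrec.fst.comp Primrec.snd)
      (Primrec.list_cons.comp (Primrec.fst.comp Primrec.snd) (Primrec.snd.comp Primrec.snd))
      (Primrec.const _)
  refine h.of_eq fun l => ?_
  induction l with
  | nil => rfl
  | cons b l ih =>
    cases b
    · rfl
    · simp only [List.foldr_cons, cond_true, ih, List.takeWhile_cons, if_true]

private theorem RURe_dropWhile : Primrec (fun l : List Bool => l.dropWhile (fun b => b)) := by
  have h : Primrec (fun l : List Bool =>
      @List.recOn Bool (fun _ => List Bool) l []
        (fun b t s => bif b then s else b :: t)) := by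
    refine Primrec.list_rec (f := fun l : List Bool => l) (g := fun _ => ([] : List Bool))
      (h := fun (_ : List Bool) (p : Bool × List Bool × List Bool) =>
        bif p.1 then p.2.2 else p.1 :: p.2.1)
      Primrec.id (Primrec.const _) ?_
    exact Primrec.cond (Primrec.fst.comp Primrec.snd)
      (Primrec.snd.comp (Primrec.snd.comp Primrec.snd))
      (Primrec.list_cons.comp (Primrec.fst.comp Primrec.snd)
        (Primrec.fst.comp (Primrec.snd.comp Primrec.snd)))
  refine h.of_eq fun l => ?_
  induction l with
  | nil => rfl
  | cons b l ih =>
    cases b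
    · rfl
    · show (List.rec (motive := fun _ => List Bool) [] (fun b t s => bif b then s else b :: t) l) = _
      rw [List.dropWhile_cons_of_pos rfl]
      exact ih

theorem RU_re : REPred RU := by
  have h1 : Computable (fun r : W × List (W × Bool) =>
      Denumerable.ofNat Nat.Partrec.Code (r.1.takeWhile (fun b => b)).length) :=
    (Computable.ofNat Nat.Partrec.Code).comp
      ((Primrec.list_length.comp (RURe_takeWhile.comp Primrec.fst)).to_comp)
  have h2 : Computable (fun r : W × List (W × Bool) =>
      Encodable.encode ((r.1.dropWhile (fun b => b)).tail, r.2)) :=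
    Computable.encode.comp
      ((Primrec.pair (Primrec.list_tail.comp (RURe_dropWhile.comp Primrec.fst))
        Primrec.snd).to_comp)
  have h3 : Partrec (fun r : W × List (W × Bool) =>
      Nat.Partrec.Code.eval
        (Denumerable.ofNat Nat.Partrec.Code (r.1.takeWhile (fun b => b)).length)
        (Encodable.encode ((r.1.dropWhile (fun b => b)).tail, r.2))) :=
    Nat.Partrec.Code.eval_part.comp h1 h2
  exact h3.dom_re

private theorem RURe_word (e : ℕ) (x : W) :
    ((List.replicate e true ++ false :: x).takeWhile (fun b => b)).length = e ∧
      ((List.replicate e true ++ false :: x).dropWhile (fun b => b)).tail = x := by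
  induction e with
  | zero => exact ⟨rfl, rfl⟩
  | succ e ih =>
    rw [List.replicate_succ, List.cons_append, List.takeWhile_cons_of_pos rfl,
      List.dropWhile_cons_of_pos rfl, List.length_cons]
    exact ⟨by rw [ih.1], ih.2⟩

theorem KR_complete {R : W × List (W × Bool) → Prop} (hR : REPred R) :
    ∃ g : W → W, PolyF g ∧ (∀ x : W, x.length ≤ (g x).length) ∧ ∀ (O : Set W) (x : W),
      (∃ L, R (x, L) ∧ Agrees L O) ↔ g x ∈ KR O := by
  obtain ⟨c, hc⟩ := Nat.Partrec.Code.exists_code.1 hR
  refine ⟨fun x => List.replicate (Encodable.encode c) true ++ false :: x, ?_, ?_, ?_⟩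
  · exact PolyF.append (PolyF.const _) (PolyF.cons (PolyF.const _) PolyF.id)
  · intro x
    rw [List.length_append, List.length_cons]
    omega
  · intro O x
    refine exists_congr fun L => and_congr_left fun _ => ?_
    unfold RU
    obtain ⟨h1, h2⟩ := RURe_word (Encodable.encode c) x
    rw [h1, h2, Denumerable.ofNat_encode, hc]
    simp only [Encodable.encodek, Part.coe_some, Part.bind_some, Part.map_Dom]
    exact ⟨fun h => ⟨h, trivial⟩, fun h => h.1⟩

end MHon
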