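import Pool.Agent.Lib.MP_1a14d4_lc.Tag

namespace MHon

private theorem cert_imp {K : Set W → Set W} (hK : Cert K) {O O' : Set W} {z : W}
    (h : ∀ w : W, w.length ≤ 2 ^ z.length → (w ∈ O ↔ w ∈ O')) (hz : z ∈ K O) : z ∈ K O' := by
  obtain ⟨L, -, hlen, hag, hall⟩ := hK O z hz
  refine hall O' fun p hp => ?_
  rw [← h p.1 (hlen p hp)]
  exact hag p hp

theorem Cert.congr {K : Set W → Set W} (hK : Cert K) {O O' : Set W} {z : W}
    (h : ∀ w : W, w.length ≤ 2 ^ z.length → (w ∈ O ↔ w ∈ O')) : z ∈ K O ↔ z ∈ K O' :=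
  ⟨cert_imp hK h, cert_imp hK fun w hw => (h w hw).symm⟩

/-- the states of the greedy construction -/
private def St (K : Set W → Set W) (O₀ : Set W) (D : List W) (code : W → W) (m b n : ℕ) : Prop :=
  ∃ (Z : Finset W) (t : W → W) (P : List (W × Bool)), Z.card = n ∧ (∀ z ∈ Z, z ∈ D) ∧
    (∀ z, (t z).length = 2 ^ m) ∧ P.length ≤ n * 2 ^ b ∧
    Agrees P (O₀ ∪ {w | ∃ z ∈ Z, w = tw (code z) (t z)}) ∧
    ∀ z ∈ Z, ∀ O', Agrees P O' → z ∈ K O'

private theorem exists_fresh (c : W) (m : ℕ) (Q : List (W × Bool)) (h : Q.length < 2 ^ 2 ^ m) :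
    ∃ τ : W, τ.length = 2 ^ m ∧ ∀ p ∈ Q, p.1 ≠ tw c τ := by
  classical
  by_contra hcon
  push Not at hcon
  have h1 : (Finset.univ : Finset (Fin (2 ^ m) → Bool)).card ≤ (Q.map Prod.fst).toFinset.card := by
    refine Finset.card_le_card_of_injOn (fun f => tw c (List.ofFn f)) (fun f _ => ?_) ?_
    · obtain ⟨p, hp, hp1⟩ := hcon (List.ofFn f) (List.length_ofFn)
      show tw c (List.ofFn f) ∈ _
      rw [Finset.mem_coe, List.mem_toFinset, List.mem_map]
      exact ⟨p, hp, hp1⟩
    · intro f _ g _ hfg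
      exact List.ofFn_injective (tw_inj hfg).2
  have h2 : (Q.map Prod.fst).toFinset.card ≤ Q.length := by
    have := List.toFinset_card_le (Q.map Prod.fst)
    rwa [List.length_map] at this
  have h3 : (Finset.univ : Finset (Fin (2 ^ m) → Bool)).card = 2 ^ 2 ^ m := by
    rw [Finset.card_univ, Fintype.card_fun, Fintype.card_bool, Fintype.card_fin]
  omega

theorem exists_truth {K : Set W → Set W} (hK : Cert K) (O₀ : Set W) (D : List W) (code : W → W)
    (m b : ℕ) (hD : ∀ z ∈ D, z.length ≤ b) (hcode : ∀ z ∈ D, (code z).length = m)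
    (hinj : ∀ z ∈ D, ∀ z' ∈ D, code z = code z' → z = z')
    (hO : ∀ z ∈ D, ∀ t, tw (code z) t ∉ O₀) (hcount : D.length * 2 ^ b < 2 ^ 2 ^ m) :
    ∃ Tr : Set W, (∀ w ∈ Tr, ∃ z ∈ D, ∃ t : W, t.length = 2 ^ m ∧ w = tw (code z) t) ∧
      ∀ z ∈ D, (z ∈ K (O₀ ∪ Tr) ↔ ∃ t : W, t.length = 2 ^ m ∧ tw (code z) t ∈ O₀ ∪ Tr) := by
  classical
  have h0 : St K O₀ D code m b 0 := by
    refine ⟨∅, fun _ => List.replicate (2 ^ m) false, [], rfl, fun z hz => ?_, fun z => ?_, ?_,
      fun p hp => ?_, fun z hz => ?_⟩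
    · exact absurd hz (Finset.notMem_empty z)
    · exact List.length_replicate
    · simp
    · simp at hp
    · exact absurd hz (Finset.notMem_empty z)
  have hbound : ∀ n, St K O₀ D code m b n → n ≤ D.toFinset.card := by
    rintro n ⟨Z, t, P, hZ, hZD, -⟩
    rw [← hZ]
    exact Finset.card_le_card fun z hz => List.mem_toFinset.2 (hZD z hz)
  obtain ⟨n, hn, hn1⟩ : ∃ n, St K O₀ D code m b n ∧ ¬ St K O₀ D code m b (n + 1) := by
    by_contra hcon
    push Not at hcon
    have hall : ∀ n, St K O₀ D code m b n := fun n => Nat.rec h0 (fun k hk => hcon k hk) n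
    have := hbound _ (hall (D.toFinset.card + 1))
    omega
  obtain ⟨Z, t, P, hZ, hZD, ht, hP, hag, hcert⟩ := hn
  have hmax : ∀ z ∈ D, z ∈ K (O₀ ∪ {w | ∃ z ∈ Z, w = tw (code z) (t z)}) → z ∈ Z := by
    intro z hz hzK
    by_contra hzZ
    obtain ⟨L, hL, -, hagL, hallL⟩ := hK _ z hzK
    have hcard : n + 1 ≤ D.length := by
      have h1 : (insert z Z).card = n + 1 := by rw [Finset.card_insert_of_notMem hzZ, hZ]
      have h2 : (insert z Z).card ≤ D.toFinset.card := by
        refine Finset.card_le_card fun y hy => List.mem_toFinset.2 ?_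
        rcases Finset.mem_insert.1 hy with h | h
        · rw [h]; exact hz
        · exact hZD y h
      have h3 := List.toFinset_card_le D
      omega
    have hLb : L.length ≤ 2 ^ b := hL.trans (Nat.pow_le_pow_right (by norm_num) (hD z hz))
    have hPL : (P ++ L).length ≤ (n + 1) * 2 ^ b := by
      rw [List.length_append, add_mul, one_mul]
      exact Nat.add_le_add hP hLb
    obtain ⟨τ, hτ, hfresh⟩ := exists_fresh (code z) m (P ++ L)
      (lt_of_le_of_lt (hPL.trans (Nat.mul_le_mul_right _ hcard)) hcount)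
    refine hn1 ⟨insert z Z, Function.update t z τ, P ++ L, ?_, ?_, ?_, hPL, ?_, ?_⟩
    · rw [Finset.card_insert_of_notMem hzZ, hZ]
    · intro y hy
      rcases Finset.mem_insert.1 hy with h | h
      · rw [h]; exact hz
      · exact hZD y h
    · intro y
      by_cases hy : y = z
      · rw [hy, Function.update_self]; exact hτ
      · rw [Function.update_of_ne hy]; exact ht y
    · intro p hp
      have hne := hfresh p hp
      have hiff : p.1 ∈ O₀ ∪ {w | ∃ y ∈ insert z Z, w = tw (code y) (Function.update t z τ y)} ↔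
          p.1 ∈ O₀ ∪ {w | ∃ y ∈ Z, w = tw (code y) (t y)} := by
        constructor
        · rintro (h | ⟨y, hy, hw⟩)
          · exact Or.inl h
          · rcases Finset.mem_insert.1 hy with h | h
            · rw [h, Function.update_self] at hw
              exact absurd hw hne
            · have hyz : y ≠ z := fun e => hzZ (e ▸ h)
              rw [Function.update_of_ne hyz] at hw
              exact Or.inr ⟨y, h, hw⟩
        · rintro (h | ⟨y, hy, hw⟩)
          · exact Or.inl h
          · have hyz : y ≠ z := fun e => hzZ (e ▸ hy)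
            refine Or.inr ⟨y, Finset.mem_insert_of_mem hy, ?_⟩
            rw [Function.update_of_ne hyz]
            exact hw
      rw [hiff]
      rcases List.mem_append.1 hp with h | h
      · exact hag p h
      · exact hagL p h
    · intro y hy O' hO'
      rcases Finset.mem_insert.1 hy with h | h
      · rw [h]
        exact hallL O' fun p hp => hO' p (List.mem_append_right _ hp)
      · exact hcert y h O' fun p hp => hO' p (List.mem_append_left _ hp)
  refine ⟨{w | ∃ z ∈ Z, w = tw (code z) (t z)}, ?_, ?_⟩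
  · rintro w ⟨z, hz, hw⟩
    exact ⟨z, hZD z hz, t z, ht z, hw⟩
  · intro z hz
    constructor
    · intro h
      exact ⟨t z, ht z, Or.inr ⟨z, hmax z hz h, rfl⟩⟩
    · rintro ⟨t', -, h | ⟨z', hz', hw⟩⟩
      · exact absurd h (hO z hz t')
      · have h1 := hinj z hz z' (hZD z' hz') (tw_inj hw).1
        rw [← h1] at hz'
        exact hcert z hz' _ hag

end MHon
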