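import Pool.Agent.Lib.MP_1a14d4_lc.Dead
import Pool.Agent.Lib.MP_1a14d4_lc.Truth
import Pool.Agent.Lib.MP_1a14d4_lc.Codes
import Pool.Agent.Lib.MP_1a14d4_lc.ExtL

namespace MHon

/-- the bounds used in a stage -/
theorem stage_arith (x κ : ℕ) :
    2 ^ (Nat.clog 2 ((x + 3) ^ (κ + 1) + 2) + 2) ≤ (x + 2) ^ (2 * κ + 6) := by
  set b := (x + 3) ^ (κ + 1) with hb
  have hb3 : 3 ≤ b := by
    calc 3 ≤ x + 3 := by omega
      _ = (x + 3) ^ 1 := (pow_one _).symm
      _ ≤ b := Nat.pow_le_pow_right (by omega) (by omega)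
  have h1 : 2 ^ (Nat.clog 2 (b + 2)).pred < b + 2 := Nat.pow_pred_clog_lt_self (by norm_num) (by omega)
  have h2 : 0 < Nat.clog 2 (b + 2) := Nat.clog_pos (by norm_num) (by omega)
  have h3 : 2 ^ Nat.clog 2 (b + 2) = 2 * 2 ^ (Nat.clog 2 (b + 2)).pred := by
    obtain ⟨c, hc⟩ : ∃ c, Nat.clog 2 (b + 2) = c + 1 := ⟨_, (Nat.succ_pred_eq_of_pos h2).symm⟩
    rw [hc, pow_succ, Nat.pred_succ, mul_comm]
  have h4 : b ≤ (x + 2) ^ (2 * κ + 2) := by
    calc b = (x + 3) ^ (κ + 1) := rfl
      _ ≤ ((x + 2) ^ 2) ^ (κ + 1) := Nat.pow_le_pow_left (by nlinarith) _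
      _ = (x + 2) ^ (2 * κ + 2) := by rw [← pow_mul]; congr 1
  have h5 : 16 ≤ (x + 2) ^ 4 := by
    calc 16 = 2 ^ 4 := by norm_num
      _ ≤ (x + 2) ^ 4 := Nat.pow_le_pow_left (by omega) _
  calc 2 ^ (Nat.clog 2 (b + 2) + 2) = 2 ^ Nat.clog 2 (b + 2) * 4 := by rw [pow_add]; norm_num
    _ ≤ 16 * b := by rw [h3]; omega
    _ ≤ (x + 2) ^ 4 * (x + 2) ^ (2 * κ + 2) := Nat.mul_le_mul h5 h4
    _ = (x + 2) ^ (2 * κ + 6) := by rw [← pow_add]; congr 1; ring

theorem stage {K : Set W → Set W} (hK : Cert K) {l : ℕ} {S : Set W} (hG : Good K l S) (A : Alg)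
    (X : ℕ → W) (hX : ∀ n, n ≤ (X n).length) {j k : ℕ} (hjk : j ≠ k) (N : ℕ) :
    ∃ (l' : ℕ) (S' : Set W), l < l' ∧ Ext l S S' ∧ Good K l' S' ∧ ∃ n ≥ N, ∀ O, Ext l' S' O →
      cf O j (X n) = true :: X n ∧
      (2 ^ (A.run O (true :: X n)).length ≤ ((X n).length + 2) ^ (2 * A.κ + 6) ∨
        ((∀ z, cf O k z ≠ A.run O (true :: X n)) ∧
          ∀ c' t : W, A.run O (true :: X n) = false :: c' → t.length = 2 ^ c'.length →
            tw c' t ∉ O)) := by
  classical
  -- the numbers
  set n := max N (2 ^ l) with hn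
  set x := X n with hx
  set u : W := true :: x with hu
  have hxn : n ≤ x.length := hX n
  have hxl : 2 ^ l ≤ x.length := (le_max_right _ _).trans hxn
  have hll : l < x.length := Nat.lt_two_pow_self.trans_le hxl
  have hulen : u.length = x.length + 1 := by simp [hu]
  set b := (x.length + 3) ^ (A.κ + 1) with hb
  have hb0 : (u.length + 2) ^ A.κ ≤ b := by
    rw [hulen]
    exact Nat.pow_le_pow_right (by omega) (by omega)
  have hbx : x.length + 3 ≤ b := by
    calc x.length + 3 = (x.length + 3) ^ 1 := (pow_one _).symm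
      _ ≤ b := Nat.pow_le_pow_right (by omega) (by omega)
  set p := A.p u.length with hp
  have hpb : p ≤ b := (A.hp _).trans hb0
  set m' := Nat.clog 2 (b + 2) with hm'
  have hm'b : b + 2 ≤ 2 ^ m' := Nat.le_pow_clog (by norm_num) _
  set m := m' + 1 with hm
  have h2m : 2 ^ m = 2 * 2 ^ m' := by rw [hm, pow_succ, mul_comm]
  have hlm : l ≤ m' := by
    have h1 : 2 ^ l < 2 ^ m' := by omega
    exact (Nat.pow_lt_pow_iff_right (by norm_num)).1 h1 |>.le
  -- the codes
  obtain ⟨d, hdlen, hdinj⟩ := exists_codes m' (p + 1) (by omega)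
  set cw : ℕ → W := fun j => d j ++ [true] with hcw
  have hcwlen : ∀ j, (cw j).length = m := fun j => by simp [hcw, hdlen, hm]
  -- the dead words
  obtain ⟨D, hDnd, hDlen, hDm, hDq, hDout⟩ := exists_dead S k m b p cw A.q A.out u
    (fun a ha => (A.hq u a ha).trans hb0) (fun a ha => (A.hout u a ha).trans hb0)
  set O₁ := OD S k cw D with hO₁
  set code : W → W := fun z => cw (D.idxOf z) with hcode
  have hcodelen : ∀ z, (code z).length = m := fun z => hcwlen _
  have hcodeinj : ∀ z ∈ D, ∀ z' ∈ D, code z = code z' → z = z' := by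
    intro z hz z' hz' h
    have h1 : D.idxOf z < D.length := List.idxOf_lt_length_iff.2 hz
    have h2 : D.idxOf z' < D.length := List.idxOf_lt_length_iff.2 hz'
    have h3 : d (D.idxOf z) = d (D.idxOf z') := by
      simp only [hcode, hcw] at h
      exact List.append_cancel_right h
    exact (List.idxOf_inj hz).1 (hdinj _ (by omega) _ (by omega) h3)
  have memO₁ : ∀ w, w ∈ O₁ ↔ w ∈ S ∨ ∃ i z, z ∈ D ∧ w = tag k i z ∧
      (true :: code z)[i]? = some true := by
    intro w
    simp only [hO₁, OD, Set.mem_union, Set.mem_ofPred_eq]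
    refine or_congr_right ⟨?_, ?_⟩
    · rintro ⟨j', i, z, h1, h2, h3⟩
      have h4 : z ∈ D := List.mem_of_getElem? h1
      refine ⟨i, z, h4, h2, ?_⟩
      have h5 : D.idxOf z = j' := by
        obtain ⟨h6, h7⟩ := List.getElem?_eq_some_iff.1 h1
        rw [← h7]
        exact hDnd.idxOf_getElem j' h6
      simp only [hcode, h5]
      exact h3
    · rintro ⟨i, z, h1, h2, h3⟩
      exact ⟨D.idxOf z, i, z, List.getElem?_idxOf h1, h2, h3⟩
  have hSshort : ∀ w ∈ S, w.length < l := hG.short
  have htwO₁ : ∀ c t : W, l ≤ c.length → tw c t ∉ O₁ := by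
    intro c t hc h
    rcases (memO₁ _).1 h with h | ⟨i, z, -, h, -⟩
    · have := hSshort _ h
      rw [tw_length] at this
      omega
    · exact tag_ne_tw _ _ _ _ _ h.symm
  -- the witness words
  obtain ⟨Tr, hTr, hTrK⟩ := exists_truth hK O₁ D code m b (fun z hz => (hDm z hz).2)
    (fun z _ => hcodelen z) hcodeinj (fun z _ t => htwO₁ _ _ (by rw [hcodelen]; omega)) (by
      have h1 : D.length ≤ 2 ^ b := by
        have : b < 2 ^ b := Nat.lt_two_pow_self
        omega
      calc D.length * 2 ^ b ≤ 2 ^ b * 2 ^ b := Nat.mul_le_mul_right _ h1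
        _ = 2 ^ (b + b) := (pow_add _ _ _).symm
        _ < 2 ^ 2 ^ m := Nat.pow_lt_pow_right (by norm_num) (by omega))
  set S' := O₁ ∪ Tr with hS'
  set l' := l + k + 3 * m + 2 ^ m + 2 ^ b + b + 10 with hl'
  have memS' : ∀ w, w ∈ S' ↔ w ∈ S ∨ (∃ i z, z ∈ D ∧ w = tag k i z ∧
      (true :: code z)[i]? = some true) ∨ w ∈ Tr := by
    intro w
    rw [hS', Set.mem_union, memO₁, or_assoc]
  -- membership of tags
  have htagS' : ∀ k' i z, l ≤ z.length → (tag k' i z ∈ S' ↔
      k' = k ∧ z ∈ D ∧ (true :: code z)[i]? = some true) := by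
    intro k' i z hz
    rw [memS']
    constructor
    · rintro (h | ⟨i', z', h1, h2, h3⟩ | h)
      · have := hSshort _ h
        rw [tag_length] at this
        omega
      · obtain ⟨e1, e2, e3⟩ := tag_inj h2
        subst e1 e2 e3
        exact ⟨rfl, h1, h3⟩
      · obtain ⟨z', -, t, -, h1⟩ := hTr _ h
        exact absurd h1 (tag_ne_tw _ _ _ _ _)
    · rintro ⟨rfl, h1, h2⟩
      exact Or.inr (Or.inl ⟨i, z, h1, rfl, h2⟩)
  -- values of the coding functions
  have hdead : ∀ z ∈ D, cf S' k z = false :: code z := by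
    intro z hz
    refine cf_code (d := d (D.idxOf z)) ?_ fun i _ => ?_
    · rw [hdlen]
      exact (hDm z hz).1
    · rw [htagS' k i z (by have := (hDm z hz).1; omega)]
      simp only [true_and, hz]
      rfl
  have hlive : ∀ k' z, l ≤ z.length → ¬ (k' = k ∧ z ∈ D) → cf S' k' z = true :: z := by
    intro k' z hz h
    refine cf_live fun h1 => h ?_
    obtain ⟨h2, h3, -⟩ := (htagS' k' 0 z hz).1 h1
    exact ⟨h2, h3⟩
  have hE : Ext l S S' := by
    refine ⟨fun w hw => (memS' w).2 (Or.inl hw), fun w hw hwS => ?_, fun k' z hz => ?_⟩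
    · rcases (memS' w).1 hw with h | ⟨i, z, h1, h2, -⟩ | h
      · exact absurd h hwS
      · exact Or.inl ⟨k, i, z, h2, by have := (hDm z h1).1; omega⟩
      · obtain ⟨z, -, t, -, h1⟩ := hTr _ h
        exact Or.inr ⟨code z, t, h1, by rw [hcodelen]; omega⟩
    · by_cases h : k' = k ∧ z ∈ D
      · obtain ⟨rfl, h1⟩ := h
        exact Or.inr ⟨code z, hdead z h1, by rw [hcodelen]; omega⟩
      · exact Or.inl (hlive k' z hz h)
  have hpos1 : 1 ≤ 2 ^ b := Nat.one_le_two_pow
  have hpos2 : 1 ≤ 2 ^ m := Nat.one_le_two_pow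
  have hll' : l < l' := by omega
  have h2b : ∀ z : W, z.length ≤ b → 2 ^ z.length < l' := by
    intro z hz
    have : 2 ^ z.length ≤ 2 ^ b := Nat.pow_le_pow_right (by norm_num) hz
    omega
  -- goodness
  have hgood : Good K l' S' := by
    refine ⟨fun w hw => ?_, ?_, ?_⟩
    · rcases (memS' w).1 hw with h | ⟨i, z, h1, h2, h3⟩ | h
      · exact (hSshort w h).trans hll'
      · have h4 : i < (true :: code z).length := by
          obtain ⟨h5, -⟩ := List.getElem?_eq_some_iff.1 h3
          exact h5
        rw [List.length_cons, hcodelen] at h4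
        rw [h2, tag_length]
        have := (hDm z h1).2
        omega
      · obtain ⟨z, -, t, h1, h2⟩ := hTr _ h
        rw [h2, tw_length, hcodelen, h1]
        omega
    · intro O hO k' z z' hz hz' h
      rw [hO.cf_eq hz, hO.cf_eq hz'] at h
      rcases lt_or_ge z.length l with h1 | h1 <;> rcases lt_or_ge z'.length l with h2 | h2
      · exact hG.inj S' hE k' z z' h1 h2 h
      · rcases hG.corr S' hE k' z h1 with h3 | ⟨c, h3, h4, -⟩
        · by_cases h5 : k' = k ∧ z' ∈ D
          · obtain ⟨rfl, h6⟩ := h5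
            rw [h3, hdead z' h6] at h
            simp at h
          · rw [h3, hlive k' z' h2 h5] at h
            simpa using h
        · by_cases h5 : k' = k ∧ z' ∈ D
          · obtain ⟨rfl, h6⟩ := h5
            rw [h4, hdead z' h6] at h
            simp only [List.cons.injEq, true_and] at h
            have := hcodelen z'
            rw [← h] at this
            omega
          · rw [h4, hlive k' z' h2 h5] at h
            simp at h
      · rcases hG.corr S' hE k' z' h2 with h3 | ⟨c, h3, h4, -⟩
        · by_cases h5 : k' = k ∧ z ∈ D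
          · obtain ⟨rfl, h6⟩ := h5
            rw [h3, hdead z h6] at h
            simp at h
          · rw [h3, hlive k' z h1 h5] at h
            simpa using h
        · by_cases h5 : k' = k ∧ z ∈ D
          · obtain ⟨rfl, h6⟩ := h5
            rw [h4, hdead z h6] at h
            simp only [List.cons.injEq, true_and] at h
            have := hcodelen z
            rw [h] at this
            omega
          · rw [h4, hlive k' z h1 h5] at h
            simp at h
      · by_cases h5 : k' = k ∧ z ∈ D <;> by_cases h6 : k' = k ∧ z' ∈ D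
        · obtain ⟨rfl, h7⟩ := h5
          rw [hdead z h7, hdead z' h6.2] at h
          simp only [List.cons.injEq, true_and] at h
          exact hcodeinj z h7 z' h6.2 h
        · obtain ⟨rfl, h7⟩ := h5
          rw [hdead z h7, hlive _ z' h2 h6] at h
          simp at h
        · obtain ⟨rfl, h7⟩ := h6
          rw [hdead z' h7, hlive _ z h1 h5] at h
          simp at h
        · rw [hlive _ z h1 h5, hlive _ z' h2 h6] at h
          simpa using h
    · intro O hO k' z hz
      rcases lt_or_ge z.length l with h1 | h1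
      · rcases hG.corr O (hE.trans hll'.le hO) k' z h1 with h2 | ⟨c, h2, h3, h4⟩
        · exact Or.inl h2
        · exact Or.inr ⟨c, h2.trans hll', h3, h4⟩
      · by_cases h5 : k' = k ∧ z ∈ D
        · obtain ⟨rfl, h6⟩ := h5
          refine Or.inr ⟨code z, by rw [hcodelen]; omega, by rw [hO.cf_eq hz, hdead z h6], ?_⟩
          rw [hK.congr (O := O) (O' := S') fun w hw => hO.short_iff
            (hw.trans_lt (h2b z (hDm z h6).2)), hTrK z h6, hcodelen]
          refine exists_congr fun t => and_congr_right fun _ => ?_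
          exact (hO.tw_iff (by rw [hcodelen]; omega)).symm
        · exact Or.inl (by rw [hO.cf_eq hz, hlive k' z h1 h5])
  refine ⟨l', S', hll', hE, hgood, n, le_max_left _ _, fun O hO => ?_⟩
  rw [← hx]
  refine ⟨?_, ?_⟩
  · rw [hO.cf_eq (by omega)]
    exact hlive j x hll.le fun h => hjk h.1
  -- the run
  have hrun : A.run O u = A.out u (answers O₁ A.q u p) := by
    unfold Alg.run
    rw [← hp, answers_congr (O := O₁) (O' := O)]
    intro i hi
    have h1 : (A.q u (answers O₁ A.q u i)).length ≤ b :=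
      (A.hq u _ (by rw [answers_length]; omega)).trans hb0
    rw [hO.short_iff (by omega), hS', Set.mem_union]
    refine ⟨Or.inl, ?_⟩
    rintro (h | h)
    · exact h
    · obtain ⟨z, -, t, h2, h3⟩ := hTr _ h
      rw [h3, tw_length, h2] at h1
      omega
  set y := A.out u (answers O₁ A.q u p) with hy
  have hyb : y.length ≤ b := (A.hout u _ (by rw [answers_length])).trans hb0
  rw [hrun]
  rcases le_or_gt y.length (m + 1) with h | h
  · left
    calc 2 ^ y.length ≤ 2 ^ (m + 1) := Nat.pow_le_pow_right (by norm_num) h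
      _ ≤ _ := stage_arith x.length A.κ
  · right
    refine ⟨fun z hz => ?_, fun c' t h1 _ h2 => ?_⟩
    · rcases lt_or_ge z.length l' with h1 | h1
      · rcases lt_or_ge z.length l with h2 | h2
        · rcases hG.corr O (hE.trans hll'.le hO) k z h2 with h3 | ⟨c, h3, h4, -⟩
          · rw [← hz, h3, List.length_cons] at h
            omega
          · rw [← hz, h4, List.length_cons] at h
            omega
        · rw [hO.cf_eq h1] at hz
          by_cases h3 : z ∈ D
          · rw [← hz, hdead z h3, List.length_cons, hcodelen] at h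
            omega
          · rw [hlive k z h2 fun h4 => h3 h4.2] at hz
            refine h3 (hDout z hz.symm ?_)
            rw [← hz, List.length_cons] at h
            omega
      · rcases hO.code k z h1 with h3 | ⟨c, h3, h4⟩
        · rw [← hz, h3, List.length_cons] at hyb
          omega
        · rw [← hz, h3, List.length_cons] at hyb
          omega
    · rw [h1, List.length_cons] at h hyb
      rw [hO.tw_iff (by omega), memS'] at h2
      rcases h2 with h2 | ⟨i, z, -, h2, -⟩ | h2
      · have := hSshort _ h2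
        rw [tw_length] at this
        omega
      · exact tag_ne_tw _ _ _ _ _ h2.symm
      · obtain ⟨z, -, t', -, h3⟩ := hTr _ h2
        obtain ⟨e, -⟩ := tw_inj h3
        rw [e, hcodelen] at h
        omega

end MHon
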