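import Pool.Agent.Lib.MP_1a14d4_lc.Dec

namespace MHon

open Pool.Agent.Lib.PolyTime

private theorem tab_lookup {I : Type*} (key val : I → T) (hk : Function.Injective key)
    (L : List I) (i : I) (hi : i ∈ L) :
    (L.map (fun i => (key i, val i))).lookup (key i) = some (val i) := by
  classical
  induction L with
  | nil => exact absurd hi List.not_mem_nil
  | cons j L ih =>
    rw [List.map_cons, List.lookup_cons]
    by_cases h : i = j
    · subst h
      simp
    · have hne : (key i == key j) = false := by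
        rw [beq_eq_false_iff_ne]
        exact fun h' => h (hk h')
      simp only [hne]
      exact ih ((List.mem_cons.mp hi).resolve_left h)

private theorem tab_tb (l : List (T × T)) (k : T) : tb (enc l) k = (l.lookup k).getD T.nil := by
  unfold tb
  rw [toL_enc, List.map_map]
  have h : ((fun p : T => (p.left, p.right)) ∘ (enc : T × T → T)) = id := by
    funext p
    rfl
  rw [h, List.map_id]

private theorem tab_exists {I : Type*} [Finite I] (key val : I → T)
    (hk : Function.Injective key) : ∃ e : T, ∀ i, tb e (key i) = val i := by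
  classical
  have := Fintype.ofFinite I
  refine ⟨enc ((Finset.univ : Finset I).toList.map (fun i => (key i, val i))), fun i => ?_⟩
  rw [tab_tb, tab_lookup key val hk _ i (Finset.mem_toList.mpr (Finset.mem_univ i))]
  rfl

private theorem tab_code {C : Type*} (G : Set C) (hG : G.Finite) :
    ∃ code : C → T, ∀ a ∈ G, ∀ b ∈ G, code a = code b → a = b := by
  classical
  have := hG.to_subtype
  obtain ⟨n, ⟨φ⟩⟩ := Finite.exists_equiv_fin G
  refine ⟨fun a => if h : a ∈ G then enc ((φ ⟨a, h⟩ : Fin n) : ℕ) else T.nil, ?_⟩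
  intro a ha b hb h
  simp only [dif_pos ha, dif_pos hb] at h
  have h1 := φ.injective (Fin.ext (enc_inj.mp h))
  exact congrArg Subtype.val h1

/-- the keys -/
private def tabKey {C : Type*} (G : Set C) (code : C → T) :
    (G × G) ⊕ ((G × G × G × G) ⊕ ((Bool × Option (Option Bool)) ⊕ G)) → T
  | .inl p => enc ((0 : ℕ), code p.1, code p.2)
  | .inr (.inl p) => enc ((1 : ℕ), code p.1, code p.2.1, code p.2.2.1, code p.2.2.2)
  | .inr (.inr (.inl p)) => enc ((2 : ℕ), p.1, p.2)
  | .inr (.inr (.inr a)) => enc ((3 : ℕ), code a)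

/-- the values -/
private def tabVal {C : Type*} (G : Set C) (code : C → T) (r0 : C → C → C)
    (r1 : C → C → C → C → C) (ini : Bool → Option (Option Bool) → C) (outp : C → Option Bool) :
    (G × G) ⊕ ((G × G × G × G) ⊕ ((Bool × Option (Option Bool)) ⊕ G)) → T
  | .inl p => code (r0 p.1 p.2)
  | .inr (.inl p) => code (r1 p.1 p.2.1 p.2.2.1 p.2.2.2)
  | .inr (.inr (.inl p)) => code (ini p.1 p.2)
  | .inr (.inr (.inr a)) => enc (outp a)

private theorem tabKey_inj {C : Type*} (G : Set C) (code : C → T)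
    (hcode : ∀ a ∈ G, ∀ b ∈ G, code a = code b → a = b) :
    Function.Injective (tabKey G code) := by
  have hc : ∀ a b : G, code a = code b → a = b := fun a b h =>
    Subtype.ext (hcode a a.2 b b.2 h)
  have hn : ∀ (m n : ℕ) (x y : T), T.node (enc m) x = T.node (enc n) y → m = n := fun m n x y h =>
    enc_inj.mp (T.node.inj h).1
  rintro (p | p | p | p) (q | q | q | q) h
  · have h1 := enc_inj.mp h
    simp only [Prod.mk.injEq, true_and] at h1
    rw [Prod.ext (hc _ _ h1.1) (hc _ _ h1.2)]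
  · exact absurd (hn _ _ _ _ h) (by norm_num)
  · exact absurd (hn _ _ _ _ h) (by norm_num)
  · exact absurd (hn _ _ _ _ h) (by norm_num)
  · exact absurd (hn _ _ _ _ h) (by norm_num)
  · have h1 := enc_inj.mp h
    simp only [Prod.mk.injEq, true_and] at h1
    rw [Prod.ext (hc _ _ h1.1) (Prod.ext (hc _ _ h1.2.1) (Prod.ext (hc _ _ h1.2.2.1)
      (hc _ _ h1.2.2.2)))]
  · exact absurd (hn _ _ _ _ h) (by norm_num)
  · exact absurd (hn _ _ _ _ h) (by norm_num)
  · exact absurd (hn _ _ _ _ h) (by norm_num)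
  · exact absurd (hn _ _ _ _ h) (by norm_num)
  · have h1 := enc_inj.mp h
    simp only [Prod.mk.injEq, true_and] at h1
    rw [Prod.ext h1.1 h1.2]
  · exact absurd (hn _ _ _ _ h) (by norm_num)
  · exact absurd (hn _ _ _ _ h) (by norm_num)
  · exact absurd (hn _ _ _ _ h) (by norm_num)
  · exact absurd (hn _ _ _ _ h) (by norm_num)
  · have h1 := enc_inj.mp h
    simp only [Prod.mk.injEq, true_and] at h1
    rw [hc _ _ h1]

theorem exists_tab {C : Type*} (G : Set C) (hG : G.Finite) (r0 : C → C → C)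
    (r1 : C → C → C → C → C) (ini : Bool → Option (Option Bool) → C) (outp : C → Option Bool)
    (hini : ∀ b o, ini b o ∈ G) (h0 : ∀ a ∈ G, ∀ b ∈ G, r0 a b ∈ G)
    (h1 : ∀ a ∈ G, ∀ b ∈ G, ∀ c ∈ G, ∀ d ∈ G, r1 a b c d ∈ G) :
    ∃ (e : T) (code : C → T),
      (∀ a ∈ G, ∀ b ∈ G, tb e (enc ((0 : ℕ), code a, code b)) = code (r0 a b)) ∧
      (∀ a ∈ G, ∀ b ∈ G, ∀ c ∈ G, ∀ d ∈ G,
        tb e (enc ((1 : ℕ), code a, code b, code c, code d)) = code (r1 a b c d)) ∧
      (∀ b o, tb e (enc ((2 : ℕ), b, o)) = code (ini b o)) ∧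
      ∀ a ∈ G, decOB (tb e (enc ((3 : ℕ), code a))) = outp a := by
  have := hG.to_subtype
  obtain ⟨code, hcode⟩ := tab_code G hG
  obtain ⟨e, he⟩ := tab_exists (tabKey G code) (tabVal G code r0 r1 ini outp)
    (tabKey_inj G code hcode)
  refine ⟨e, code, ?_, ?_, ?_, ?_⟩
  · intro a ha b hb
    exact he (.inl (⟨a, ha⟩, ⟨b, hb⟩))
  · intro a ha b hb c hc d hd
    exact he (.inr (.inl (⟨a, ha⟩, ⟨b, hb⟩, ⟨c, hc⟩, ⟨d, hd⟩)))
  · intro b o
    exact he (.inr (.inr (.inl (b, o))))
  · intro a ha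
    have h := he (.inr (.inr (.inr ⟨a, ha⟩)))
    have h' : tb e (enc ((3 : ℕ), code a)) = enc (outp a) := h
    rw [h', decOB_enc]

end MHon
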